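import Mathlib

/-! # Meeting times of two trajectories of the 3x+1 map: the Markov chain of the pair

A pair `x`, `y = 3 ^ a * x + β` of integers is described by the state `(a, β)`. The parity of `x` is a fair coin, and
after one step the pair is (in some order) of the same form, with the new state `step c (a, β)`. -/

namespace Pool.Agent.Q158.Pair

/-- The shortcut `3x+1` map on the integers. -/
def T (x : ℤ) : ℤ := if x % 2 = 0 then x / 2 else (3 * x + 1) / 2

/-- `e a = (3 ^ a - 1) / 2`. -/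
def e : ℕ → ℤ
  | 0 => 0
  | a + 1 => 3 * e a + 1

lemma e_spec (a : ℕ) : 2 * e a + 1 = 3 ^ a := by
  induction a with
  | zero => simp [e]
  | succ n ih => rw [e, pow_succ, ← ih]; ring

/-- One step of the chain. -/
def step (c : Bool) (z : ℕ × ℤ) : ℕ × ℤ :=
  if z.2 % 2 = 0 then (if c then (z.1, 3 * (z.2 / 2) - e z.1) else (z.1, z.2 / 2))
  else if c then (if z.1 = 0 then (1, -3 * (z.2 / 2) - 1) else (z.1 - 1, z.2 / 2 - e (z.1 - 1)))
  else (z.1 + 1, 3 * (z.2 / 2) + 2)

lemma step_even (a : ℕ) (k : ℤ) : step false (a, 2 * k) = (a, k) ∧ step true (a, 2 * k) = (a, 3 * k - e a) := by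
  have h : (2 * k) % 2 = 0 := by omega
  have h' : (2 * k) / 2 = k := by omega
  simp [step, h']

lemma step_odd_false (a : ℕ) (k : ℤ) : step false (a, 2 * k + 1) = (a + 1, 3 * k + 2) := by
  have h : ¬ (2 * k + 1) % 2 = 0 := by omega
  have h' : (2 * k + 1) / 2 = k := by omega
  simp only [step, h, h']; simp

lemma step_odd_true_zero (k : ℤ) : step true (0, 2 * k + 1) = (1, -3 * k - 1) := by
  have h : ¬ (2 * k + 1) % 2 = 0 := by omega
  have h' : (2 * k + 1) / 2 = k := by omega
  simp only [step, h, h']; simp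

lemma step_odd_true_succ (a : ℕ) (k : ℤ) : step true (a + 1, 2 * k + 1) = (a, k - e a) := by
  have h : ¬ (2 * k + 1) % 2 = 0 := by omega
  have h' : (2 * k + 1) / 2 = k := by omega
  simp only [step, h, h']; simp

lemma step_zero (c : Bool) : step c (0, 0) = (0, 0) := by
  have := step_even 0 0
  simp [e] at this
  cases c
  · exact this.1
  · exact this.2

/-- The averaging operator of the chain. -/
noncomputable def av (f : ℕ × ℤ → ℝ) (z : ℕ × ℤ) : ℝ := (f (step false z) + f (step true z)) / 2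

lemma av_even (f : ℕ × ℤ → ℝ) (a : ℕ) (k : ℤ) : av f (a, 2 * k) = (f (a, k) + f (a, 3 * k - e a)) / 2 := by
  rw [av, (step_even a k).1, (step_even a k).2]

lemma av_odd_zero (f : ℕ × ℤ → ℝ) (k : ℤ) : av f (0, 2 * k + 1) = (f (1, 3 * k + 2) + f (1, -3 * k - 1)) / 2 := by
  rw [av, step_odd_false, step_odd_true_zero]

lemma av_odd_succ (f : ℕ × ℤ → ℝ) (a : ℕ) (k : ℤ) :
    av f (a + 1, 2 * k + 1) = (f (a + 2, 3 * k + 2) + f (a, k - e a)) / 2 := by
  rw [av, step_odd_false, step_odd_true_succ]

lemma av_zero (f : ℕ × ℤ → ℝ) : av f (0, 0) = f (0, 0) := by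
  rw [av, step_zero, step_zero]; ring

lemma av_mono {f g : ℕ × ℤ → ℝ} (h : ∀ z, f z ≤ g z) (z : ℕ × ℤ) : av f z ≤ av g z := by
  unfold av; linarith [h (step false z), h (step true z)]

lemma av_add (f g : ℕ × ℤ → ℝ) (z : ℕ × ℤ) : av (fun z => f z + g z) z = av f z + av g z := by
  unfold av; ring

lemma av_mul (c : ℝ) (f : ℕ × ℤ → ℝ) (z : ℕ × ℤ) : av (fun z => c * f z) z = c * av f z := by
  unfold av; ring

lemma av_const (c : ℝ) (z : ℕ × ℤ) : av (fun _ => c) z = c := by
  unfold av; ring

/-- Cases of a state. -/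
lemma state_cases (z : ℕ × ℤ) :
    (∃ k : ℤ, z = (0, 2 * k)) ∨ (∃ a : ℕ, ∃ k : ℤ, z = (a + 1, 2 * k)) ∨ (∃ k : ℤ, z = (0, 2 * k + 1)) ∨
      (∃ a : ℕ, ∃ k : ℤ, z = (a + 1, 2 * k + 1)) := by
  obtain ⟨a, b⟩ := z
  rcases Int.even_or_odd' b with ⟨k, hk | hk⟩ <;> rcases a with _ | a
  · left; exact ⟨k, by rw [hk]⟩
  · right; left; exact ⟨a, k, by rw [hk]⟩
  · right; right; left; exact ⟨k, by rw [hk]⟩
  · right; right; right; exact ⟨a, k, by rw [hk]⟩

/-- The probability that the pair has not met after `t` steps. -/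
noncomputable def surv : ℕ → ℕ × ℤ → ℝ
  | 0 => fun z => if z = (0, 0) then 0 else 1
  | t + 1 => av (surv t)

lemma surv_zero_state (t : ℕ) : surv t (0, 0) = 0 := by
  induction t with
  | zero => simp [surv]
  | succ n ih => rw [surv, av_zero, ih]

lemma surv_nonneg (t : ℕ) (z : ℕ × ℤ) : 0 ≤ surv t z := by
  induction t generalizing z with
  | zero => simp only [surv]; split_ifs <;> norm_num
  | succ n ih => simp only [surv, av]; linarith [ih (step false z), ih (step true z)]

lemma surv_le_one (t : ℕ) (z : ℕ × ℤ) : surv t z ≤ 1 := by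
  induction t generalizing z with
  | zero => simp only [surv]; split_ifs <;> norm_num
  | succ n ih => simp only [surv, av]; linarith [ih (step false z), ih (step true z)]

lemma surv_succ_le (t : ℕ) (z : ℕ × ℤ) : surv (t + 1) z ≤ surv t z := by
  induction t generalizing z with
  | zero =>
    by_cases h : z = (0, 0)
    · rw [h, surv_zero_state, surv_zero_state]
    · have : surv 0 z = 1 := by simp [surv, h]
      rw [this]; exact surv_le_one _ _
  | succ n ih => rw [surv]; conv_rhs => rw [surv]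
                 exact av_mono ih z

lemma surv_anti {s t : ℕ} (h : s ≤ t) (z : ℕ × ℤ) : surv t z ≤ surv s z := by
  induction h with
  | refl => exact le_rfl
  | step _ ih => exact (surv_succ_le _ z).trans ih

end Pool.Agent.Q158.Pair
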