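import Pool.Agent.Q158.Pair.Chain

/-! # Lower bound for the probability that the pair has not met -/

namespace Pool.Agent.Q158.Pair

/-- The probability that the simple random walk from `a` avoids `0` during `t` steps. -/
noncomputable def q : ℕ → ℕ → ℝ
  | 0 => fun a => if a = 0 then 0 else 1
  | t + 1 => fun a => if a = 0 then 0 else (q t (a + 1) + q t (a - 1)) / 2

lemma q_zero_right (t : ℕ) : q t 0 = 0 := by
  cases t <;> simp [q]

lemma q_nonneg (t a : ℕ) : 0 ≤ q t a := by
  induction t generalizing a with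
  | zero => simp only [q]; split_ifs <;> norm_num
  | succ n ih => simp only [q]; split_ifs
                 · exact le_rfl
                 · linarith [ih (a + 1), ih (a - 1)]

lemma q_le_one (t a : ℕ) : q t a ≤ 1 := by
  induction t generalizing a with
  | zero => simp only [q]; split_ifs <;> norm_num
  | succ n ih => simp only [q]; split_ifs
                 · norm_num
                 · linarith [ih (a + 1), ih (a - 1)]

lemma q_succ (t a : ℕ) : q (t + 1) (a + 1) = (q t (a + 2) + q t a) / 2 := by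
  simp [q]

lemma q_succ_le (t a : ℕ) : q (t + 1) a ≤ q t a := by
  induction t generalizing a with
  | zero =>
    rcases a with _ | a
    · simp [q]
    · have h : q 0 (a + 1) = 1 := by simp [q]
      rw [h]; exact q_le_one _ _
  | succ n ih =>
    rcases a with _ | a
    · simp [q]
    · rw [q_succ (n + 1) a, q_succ n a]; linarith [ih (a + 2), ih a]

lemma surv_ge_q (t : ℕ) : ∀ z : ℕ × ℤ, z ≠ (0, 0) → q t (max z.1 1) ≤ surv t z := by
  induction t with
  | zero =>
    intro z hz
    have : surv 0 z = 1 := by simp [surv, hz]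
    rw [this]; exact q_le_one _ _
  | succ n ih =>
    intro z hz
    have hmono := q_succ_le n
    have hge : ∀ z : ℕ × ℤ, q n z.1 ≤ surv n z := by
      intro z
      by_cases h : z = (0, 0)
      · rw [h]; simp [q_zero_right, surv_zero_state]
      · rcases Nat.eq_zero_or_pos z.1 with h1 | h1
        · rw [h1, q_zero_right]; exact surv_nonneg _ _
        · have := ih z h
          rwa [max_eq_left (by omega : 1 ≤ z.1)] at this
    rw [surv]
    rcases state_cases z with ⟨k, rfl⟩ | ⟨a, k, rfl⟩ | ⟨k, rfl⟩ | ⟨a, k, rfl⟩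
    · rw [av_even]
      have hk : k ≠ 0 := by rintro rfl; exact hz rfl
      have h1 := ih (0, k) (by simpa using hk)
      have h2 := ih (0, 3 * k - e 0) (by simp [e]; omega)
      have h3 := hmono 1
      simp only [ge_iff_le, zero_le, sup_of_le_right] at h1 h2 ⊢
      linarith
    · rw [av_even]
      have h1 := ih (a + 1, k) (by simp)
      have h2 := ih (a + 1, 3 * k - e (a + 1)) (by simp)
      have h3 := hmono (a + 1)
      have : max (a + 1) 1 = a + 1 := by omega
      simp only [this] at h1 h2 ⊢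
      linarith
    · rw [av_odd_zero]
      have h1 := ih (1, 3 * k + 2) (by simp)
      have h2 := ih (1, -3 * k - 1) (by simp)
      have h3 := hmono 1
      simp only [max_self, ge_iff_le, zero_le, sup_of_le_right] at h1 h2 ⊢
      linarith
    · rw [av_odd_succ]
      have h1 := hge (a + 2, 3 * k + 2)
      have h2 := hge (a, k - e a)
      have : max (a + 1) 1 = a + 1 := by omega
      simp only [this]
      rw [q_succ]
      simp only at h1 h2
      linarith

/-- A subsolution. -/
lemma q_ge_phi (K : ℝ) (hK : 0 < K) (s : ℕ) : ∀ a : ℕ, (2 * a * K - a ^ 2 - s) / K ^ 2 ≤ q s a := by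
  induction s with
  | zero =>
    intro a
    rcases a with _ | a
    · simp [q]
    · have h : q 0 (a + 1) = 1 := by simp [q]
      rw [h, div_le_one (by positivity)]
      push_cast
      nlinarith [sq_nonneg (K - (a + 1))]
  | succ n ih =>
    intro a
    rcases a with _ | a
    · rw [q_zero_right]
      apply div_nonpos_of_nonpos_of_nonneg
      · push_cast; nlinarith [(Nat.cast_nonneg n : (0:ℝ) ≤ n)]
      · positivity
    · rw [q_succ]
      have h1 := ih (a + 2)
      have h2 := ih a
      have : (2 * ((a + 1 : ℕ) : ℝ) * K - ((a + 1 : ℕ) : ℝ) ^ 2 - ((n + 1 : ℕ) : ℝ)) / K ^ 2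
          = ((2 * ((a + 2 : ℕ) : ℝ) * K - ((a + 2 : ℕ) : ℝ) ^ 2 - n) / K ^ 2
            + (2 * (a : ℝ) * K - (a : ℝ) ^ 2 - n) / K ^ 2) / 2 := by
        push_cast; field_simp; ring
      rw [this]; linarith

lemma q_ge_half (s a : ℕ) (ha : 1 ≤ a) (h : 2 * s ≤ a ^ 2) : 1 / 2 ≤ q s a := by
  have h1 := q_ge_phi a (by exact_mod_cast ha) s a
  refine le_trans ?_ h1
  have ha' : (0:ℝ) < (a:ℝ) ^ 2 := by positivity
  rw [le_div_iff₀ ha']
  have : (2:ℝ) * s ≤ (a:ℝ) ^ 2 := by exact_mod_cast h
  nlinarith

lemma q_ge_lin (K : ℕ) (hK : 1 ≤ K) (s : ℕ) (hs : 2 * s ≤ K ^ 2) : ∀ a : ℕ, a ≤ K → (a : ℝ) / (2 * K) ≤ q s a := by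
  have hK' : (0:ℝ) < K := by exact_mod_cast hK
  induction s with
  | zero =>
    intro a ha
    rcases a with _ | a
    · simp [q]
    · have h : q 0 (a + 1) = 1 := by simp [q]
      rw [h, div_le_one (by positivity)]
      have : ((a + 1 : ℕ) : ℝ) ≤ K := by exact_mod_cast ha
      linarith
  | succ n ih =>
    intro a ha
    rcases Nat.lt_or_ge a K with h | h
    · rcases a with _ | a
      · simp [q_zero_right]
      · rw [q_succ]
        have h1 := ih (by omega) (a + 2) (by omega)
        have h2 := ih (by omega) a (by omega)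
        have : ((a + 1 : ℕ) : ℝ) / (2 * K) = (((a + 2 : ℕ) : ℝ) / (2 * K) + (a : ℝ) / (2 * K)) / 2 := by
          push_cast; field_simp; ring
        rw [this]; linarith
    · have hb : a = K := by omega
      subst hb
      have := q_ge_half (n + 1) a hK hs
      have h2 : (a : ℝ) / (2 * a) = 1 / 2 := by field_simp
      rw [h2]; exact this

/-- **Lower bound.** -/
theorem surv_ge (t : ℕ) (ht : 1 ≤ t) (z : ℕ × ℤ) (hz : z ≠ (0, 0)) :
    1 / 16 * min 1 ((1 + z.1) / √t) ≤ surv t z := by
  refine le_trans ?_ (surv_ge_q t z hz)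
  set m := max z.1 1 with hm
  have hm1 : 1 ≤ m := by omega
  have hz1 : (1 + z.1 : ℝ) ≤ 2 * m := by
    have : 1 + z.1 ≤ 2 * m := by omega
    exact_mod_cast this
  have ht' : (0:ℝ) < √t := Real.sqrt_pos.mpr (by exact_mod_cast ht)
  by_cases h : 2 * t ≤ m ^ 2
  · have := q_ge_half t m hm1 h
    have h1 : min 1 ((1 + z.1 : ℝ) / √t) ≤ 1 := min_le_left _ _
    linarith
  · push Not at h
    -- K with K^2 ≥ 2 t, K ≥ m, K ≤ 4 √ t
    set K := 2 * (Nat.sqrt t + 1) with hK
    have hs1 : t < (Nat.sqrt t + 1) ^ 2 := Nat.lt_succ_sqrt' t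
    have hK2 : 2 * t ≤ K ^ 2 := by rw [hK]; nlinarith
    have hmK : m ≤ K := by
      by_contra hc
      push Not at hc
      nlinarith
    have h1 := q_ge_lin K (by omega) t hK2 m hmK
    refine le_trans ?_ h1
    have hKr : (K:ℝ) ≤ 4 * √t := by
      have h3 : (Nat.sqrt t : ℝ) ≤ √t := Real.nat_sqrt_le_real_sqrt
      have h4 : (1:ℝ) ≤ √t := by
        rw [Real.one_le_sqrt]; exact_mod_cast ht
      rw [hK]; push_cast; linarith
    have hKpos : (0:ℝ) < K := by rw [hK]; positivity
    have h5 : min 1 ((1 + z.1 : ℝ) / √t) ≤ (1 + z.1 : ℝ) / √t := min_le_right _ _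
    have h6 : (1 + z.1 : ℝ) / √t ≤ 8 * m / K := by
      rw [div_le_div_iff₀ ht' hKpos]
      have hm0 : (0:ℝ) ≤ m := by positivity
      nlinarith
    have h7 : (m : ℝ) / (2 * K) = 1 / 16 * (8 * m / K) := by field_simp; norm_num
    rw [h7]
    have := h5.trans h6
    linarith

end Pool.Agent.Q158.Pair
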