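import Pool.Agent.Q158.Pair.Upper2
import Pool.Agent.Q158.Pair.Low

/-! # From the chain to the trajectories -/

namespace Pool.Agent.Q158.Pair

/-- The parity of `x`. -/
def od (x : ℤ) : Bool := decide (x % 2 = 1)

/-- The next base point. -/
def nb (z : ℕ × ℤ) (x : ℤ) : ℤ :=
  if x % 2 = 0 then x / 2 else if z.1 = 0 ∧ z.2 % 2 = 1 then x / 2 + z.2 / 2 + 1 else 3 * (x / 2) + 2

/-- The pair `x`, `3 ^ a * x + β` has met within `t` steps, by the rules of the chain. -/
def Co : ℕ → ℕ × ℤ → ℤ → Prop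
  | 0 => fun z _ => z = (0, 0)
  | t + 1 => fun z x => Co t (step (od x) z) (nb z x)

lemma od_even (m : ℤ) : od (2 * m) = false := by
  have : ¬ (2 * m) % 2 = 1 := by omega
  simp [od]

lemma od_odd (m : ℤ) : od (2 * m + 1) = true := by
  have : (2 * m + 1) % 2 = 1 := by omega
  simp [od, this]

lemma nb_even (z : ℕ × ℤ) (m : ℤ) : nb z (2 * m) = m := by
  have : (2 * m) % 2 = 0 := by omega
  have h : (2 * m) / 2 = m := by omega
  simp only [nb, this, if_true, h]

lemma nb_odd (z : ℕ × ℤ) (m : ℤ) : nb z (2 * m + 1) =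
    if z.1 = 0 ∧ z.2 % 2 = 1 then m + z.2 / 2 + 1 else 3 * m + 2 := by
  have : ¬ (2 * m + 1) % 2 = 0 := by omega
  have h : (2 * m + 1) / 2 = m := by omega
  simp only [nb, this, if_false, h]

lemma T_even (m : ℤ) : T (2 * m) = m := by
  have : (2 * m) % 2 = 0 := by omega
  simp only [T, this, if_true]; omega

lemma T_odd (m : ℤ) : T (2 * m + 1) = 3 * m + 2 := by
  have : ¬ (2 * m + 1) % 2 = 0 := by omega
  simp only [T, this, if_false]; omega

/-- One step of the pair. -/
lemma pair_step (z : ℕ × ℤ) (x : ℤ) :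
    (T x = nb z x ∧ T (3 ^ z.1 * x + z.2) = 3 ^ (step (od x) z).1 * nb z x + (step (od x) z).2) ∨
    (T x = 3 ^ (step (od x) z).1 * nb z x + (step (od x) z).2 ∧ T (3 ^ z.1 * x + z.2) = nb z x) := by
  rcases Int.even_or_odd' x with ⟨m, rfl | rfl⟩
  · left
    rw [nb_even, od_even, T_even]
    refine ⟨rfl, ?_⟩
    rcases state_cases z with ⟨k, rfl⟩ | ⟨a, k, rfl⟩ | ⟨k, rfl⟩ | ⟨a, k, rfl⟩
    · rw [(step_even 0 k).1]
      have : (3:ℤ) ^ 0 * (2 * m) + 2 * k = 2 * (m + k) := by ring
      simp only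
      rw [this, T_even]; ring
    · rw [(step_even (a + 1) k).1]
      have : (3:ℤ) ^ (a + 1) * (2 * m) + 2 * k = 2 * (3 ^ (a + 1) * m + k) := by ring
      simp only
      rw [this, T_even]
    · rw [step_odd_false 0 k]
      have : (3:ℤ) ^ 0 * (2 * m) + (2 * k + 1) = 2 * (m + k) + 1 := by ring
      simp only
      rw [this, T_odd]; ring
    · rw [step_odd_false (a + 1) k]
      have : (3:ℤ) ^ (a + 1) * (2 * m) + (2 * k + 1) = 2 * (3 ^ (a + 1) * m + k) + 1 := by ring
      simp only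
      rw [this, T_odd]; ring
  · rw [nb_odd, od_odd, T_odd]
    have he : ∀ a : ℕ, (3:ℤ) ^ a = 2 * e a + 1 := fun a => (e_spec a).symm
    rcases state_cases z with ⟨k, rfl⟩ | ⟨a, k, rfl⟩ | ⟨k, rfl⟩ | ⟨a, k, rfl⟩
    · left
      have hk : ¬ (2 * k) % 2 = 1 := by omega
      simp only [hk, and_false, if_false]
      rw [(step_even 0 k).2]
      have : (3:ℤ) ^ 0 * (2 * m + 1) + 2 * k = 2 * (m + k) + 1 := by ring
      simp only
      rw [this, T_odd]
      refine ⟨trivial, ?_⟩
      simp only [e]; ring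
    · left
      have hk : ¬ (2 * k) % 2 = 1 := by omega
      simp only [hk, and_false, if_false]
      rw [(step_even (a + 1) k).2]
      have : (3:ℤ) ^ (a + 1) * (2 * m + 1) + 2 * k = 2 * (3 ^ (a + 1) * m + e (a + 1) + k) + 1 := by
        have := he (a + 1)
        calc (3:ℤ) ^ (a + 1) * (2 * m + 1) + 2 * k = 3 ^ (a + 1) * (2 * m) + 3 ^ (a + 1) + 2 * k := by ring
          _ = 3 ^ (a + 1) * (2 * m) + (2 * e (a + 1) + 1) + 2 * k := by rw [← he (a + 1)]
          _ = _ := by ring
      simp only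
      rw [this, T_odd]
      refine ⟨trivial, ?_⟩
      have := he (a + 1)
      linear_combination (-2) * this
    · right
      have hk : (2 * k + 1) % 2 = 1 := by omega
      have hk2 : (2 * k + 1) / 2 = k := by omega
      simp only [hk, hk2, and_self, if_true]
      rw [step_odd_true_zero k]
      have : (3:ℤ) ^ 0 * (2 * m + 1) + (2 * k + 1) = 2 * (m + k + 1) := by ring
      simp only
      rw [this, T_even]
      exact ⟨by ring, rfl⟩
    · left
      have hk : ¬ (a + 1 = 0 ∧ (2 * k + 1) % 2 = 1) := by omega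
      simp only [hk, if_false]
      rw [step_odd_true_succ a k]
      have h1 := he a
      have h2 := he (a + 1)
      have h3 : e (a + 1) = 3 * e a + 1 := rfl
      have : (3:ℤ) ^ (a + 1) * (2 * m + 1) + (2 * k + 1) = 2 * (3 ^ (a + 1) * m + e (a + 1) + k + 1) := by
        linear_combination h2
      simp only
      rw [this, T_even]
      refine ⟨trivial, ?_⟩
      rw [h3, pow_succ]
      linear_combination (-2) * h1

lemma meet_step (t : ℕ) (z : ℕ × ℤ) (x : ℤ) :
    T^[t + 1] x = T^[t + 1] (3 ^ z.1 * x + z.2) ↔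
      T^[t] (nb z x) = T^[t] (3 ^ (step (od x) z).1 * nb z x + (step (od x) z).2) := by
  rw [Function.iterate_succ_apply, Function.iterate_succ_apply]
  rcases pair_step z x with ⟨h1, h2⟩ | ⟨h1, h2⟩
  · rw [h1, h2]
  · rw [h1, h2]; exact eq_comm

lemma Co_meet (t : ℕ) (z : ℕ × ℤ) (x : ℤ) (h : Co t z x) : T^[t] x = T^[t] (3 ^ z.1 * x + z.2) := by
  induction t generalizing z x with
  | zero =>
    have : z = (0, 0) := h
    rw [this]; simp
  | succ n ih =>
    rw [meet_step]
    exact ih _ _ h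

/-- `Co` depends only on the residue class. -/
lemma Co_per (t : ℕ) (z : ℕ × ℤ) (x j : ℤ) : Co t z (x + 2 ^ t * j) ↔ Co t z x := by
  induction t generalizing z x j with
  | zero => simp [Co]
  | succ n ih =>
    simp only [Co]
    rcases Int.even_or_odd' x with ⟨m, rfl | rfl⟩
    · have : 2 * m + 2 ^ (n + 1) * j = 2 * (m + 2 ^ n * j) := by ring
      rw [this, nb_even, nb_even, od_even, od_even]
      exact ih _ _ _
    · have : 2 * m + 1 + 2 ^ (n + 1) * j = 2 * (m + 2 ^ n * j) + 1 := by ring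
      rw [this, nb_odd, nb_odd, od_odd, od_odd]
      split_ifs with h
      · have : m + 2 ^ n * j + z.2 / 2 + 1 = (m + z.2 / 2 + 1) + 2 ^ n * j := by ring
        rw [this]; exact ih _ _ _
      · have : 3 * (m + 2 ^ n * j) + 2 = (3 * m + 2) + 2 ^ n * (3 * j) := by ring
        rw [this]; exact ih _ _ _

/-- Two accidental meetings in one residue class coincide. -/
lemma accident (t : ℕ) (z : ℕ × ℤ) (x j : ℤ) (h1 : ¬ Co t z x) (h1' : T^[t] x = T^[t] (3 ^ z.1 * x + z.2))
    (h2' : T^[t] (x + 2 ^ t * j) = T^[t] (3 ^ z.1 * (x + 2 ^ t * j) + z.2)) : j = 0 := by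
  induction t generalizing z x j with
  | zero =>
    have hz : z ≠ (0, 0) := h1
    obtain ⟨a, β⟩ := z
    simp only [Function.iterate_zero, id_eq, pow_zero, one_mul] at h1' h2'
    have h3 : (3 ^ a - 1) * j = 0 := by linear_combination h1' - h2'
    rcases mul_eq_zero.mp h3 with h4 | h4
    · rcases Nat.eq_zero_or_pos a with ha | ha
      · subst ha
        exfalso
        apply hz
        simp at h1'
        rw [h1']
      · have : (3:ℤ) ≤ 3 ^ a := by
          calc (3:ℤ) = 3 ^ 1 := by norm_num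
            _ ≤ 3 ^ a := pow_le_pow_right₀ (by norm_num) ha
        omega
    · exact h4
  | succ n ih =>
    rw [meet_step] at h1' h2'
    simp only [Co] at h1
    rcases Int.even_or_odd' x with ⟨m, rfl | rfl⟩
    · have : 2 * m + 2 ^ (n + 1) * j = 2 * (m + 2 ^ n * j) := by ring
      rw [this, nb_even, od_even] at h2'
      rw [nb_even, od_even] at h1 h1'
      exact ih _ _ _ h1 h1' h2'
    · have : 2 * m + 1 + 2 ^ (n + 1) * j = 2 * (m + 2 ^ n * j) + 1 := by ring
      rw [this, nb_odd, od_odd] at h2'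
      rw [nb_odd, od_odd] at h1 h1'
      split_ifs at h1 h1' h2' with h
      · have : m + 2 ^ n * j + z.2 / 2 + 1 = (m + z.2 / 2 + 1) + 2 ^ n * j := by ring
        rw [this] at h2'
        exact ih _ _ _ h1 h1' h2'
      · have : 3 * (m + 2 ^ n * j) + 2 = (3 * m + 2) + 2 ^ n * (3 * j) := by ring
        rw [this] at h2'
        have := ih _ _ _ h1 h1' h2'
        omega

/-- Sum of a periodic function along an arithmetic progression with coprime difference. -/
lemma per_sum (M : ℕ) (hM : 0 < M) (g : ℤ → ℝ) (hg : ∀ x j : ℤ, g (x + M * j) = g x) (u : ℤ)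
    (hu : IsCoprime u (M:ℤ)) (s : ℤ) :
    ∑ i ∈ Finset.range M, g (u * i + s) = ∑ i ∈ Finset.range M, g i := by
  have hM' : (0:ℤ) < M := by exact_mod_cast hM
  set φ : ℕ → ℕ := fun i => ((u * i + s) % M).toNat with hφ
  have hφ1 : ∀ i, ((φ i : ℕ) : ℤ) = (u * i + s) % M := fun i => Int.toNat_of_nonneg (Int.emod_nonneg _ hM'.ne')
  have hmap : ∀ i ∈ Finset.range M, φ i ∈ Finset.range M := by
    intro i _
    rw [Finset.mem_range]
    have := Int.emod_lt_of_pos (u * i + s) hM'
    have h2 := hφ1 i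
    omega
  have hinj : Set.InjOn φ (Finset.range M : Set ℕ) := by
    intro i hi j hj hij
    have h1 := hφ1 i
    rw [hij, hφ1 j] at h1
    have h2 : (M:ℤ) ∣ (u * j + s) - (u * i + s) := Int.ModEq.dvd h1.symm
    have h3 : (M:ℤ) ∣ u * ((j:ℤ) - i) := by
      have : (u * j + s) - (u * i + s) = u * ((j:ℤ) - i) := by ring
      rwa [this] at h2
    have h4 : (M:ℤ) ∣ (j:ℤ) - i := hu.symm.dvd_of_dvd_mul_left h3
    simp only [Finset.coe_range, Set.mem_Iio] at hi hj
    obtain ⟨c, hc⟩ := h4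
    have h5 : c = 0 := by
      by_contra hne
      rcases lt_or_gt_of_ne hne with h | h
      · have : (M:ℤ) * c ≤ M * (-1) := mul_le_mul_of_nonneg_left (by omega) hM'.le
        omega
      · have : (M:ℤ) * 1 ≤ M * c := mul_le_mul_of_nonneg_left (by omega) hM'.le
        omega
    rw [h5] at hc
    omega
  have himg : (Finset.range M).image φ = Finset.range M := by
    apply Finset.eq_of_subset_of_card_le
    · intro y hy
      obtain ⟨i, hi, rfl⟩ := Finset.mem_image.mp hy
      exact hmap i hi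
    · rw [Finset.card_image_of_injOn hinj]
  have h1 : ∑ i ∈ Finset.range M, g i = ∑ i ∈ Finset.range M, g ((φ i : ℕ) : ℤ) := by
    conv_lhs => rw [← himg]
    rw [Finset.sum_image hinj]
  rw [h1]
  apply Finset.sum_congr rfl
  intro i _
  rw [hφ1 i]
  have : u * i + s = (u * i + s) % M + M * ((u * i + s) / M) := (Int.emod_add_mul_ediv _ _).symm
  conv_lhs => rw [this]
  exact hg _ _

open Classical in
/-- Indicator of a pair that has not met. -/
noncomputable def nc (t : ℕ) (z : ℕ × ℤ) (x : ℤ) : ℝ := if Co t z x then 0 else 1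

lemma nc_congr {t t' : ℕ} {z z' : ℕ × ℤ} {x x' : ℤ} (h : Co t z x ↔ Co t' z' x') : nc t z x = nc t' z' x' := by
  unfold nc
  by_cases h1 : Co t z x
  · rw [if_pos h1, if_pos (h.mp h1)]
  · rw [if_neg h1, if_neg (fun h2 => h1 (h.mpr h2))]

lemma nc_per (t : ℕ) (z : ℕ × ℤ) (x j : ℤ) : nc t z (x + ((2 ^ t : ℕ) : ℤ) * j) = nc t z x := by
  apply nc_congr
  have := Co_per t z x j
  have e : ((2 ^ t : ℕ) : ℤ) = 2 ^ t := by push_cast; rfl
  rw [e]; exact this

lemma nc_nonneg (t : ℕ) (z : ℕ × ℤ) (x : ℤ) : 0 ≤ nc t z x := by unfold nc; split_ifs <;> norm_num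

lemma sum_two (g : ℤ → ℝ) (n : ℕ) : ∑ i ∈ Finset.range (2 * n), g i =
    ∑ i ∈ Finset.range n, g (2 * (i:ℤ)) + ∑ i ∈ Finset.range n, g (2 * (i:ℤ) + 1) := by
  induction n with
  | zero => simp
  | succ n ih =>
    rw [show 2 * (n + 1) = 2 * n + 1 + 1 by ring, Finset.sum_range_succ, Finset.sum_range_succ, ih,
      Finset.sum_range_succ, Finset.sum_range_succ]
    push_cast
    ring

lemma cop2 (t : ℕ) (u : ℤ) (hu : u % 2 = 1) : IsCoprime u ((2 ^ t : ℕ) : ℤ) := by
  push_cast
  apply IsCoprime.pow_right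
  rw [Int.isCoprime_iff_gcd_eq_one]
  have : Int.gcd u 2 ∣ 2 := by
    have := Int.gcd_dvd_right u 2
    exact_mod_cast this
  rcases (Nat.dvd_prime Nat.prime_two).mp this with h | h
  · exact h
  · exfalso
    have h2 := Int.gcd_dvd_left u 2
    rw [h] at h2
    omega

/-- The number of residue classes modulo `2 ^ t` that have not met. -/
theorem sum_nc (t : ℕ) (z : ℕ × ℤ) : ∑ i ∈ Finset.range (2 ^ t), nc t z i = 2 ^ t * surv t z := by
  induction t generalizing z with
  | zero =>
    by_cases h : z = (0, 0)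
    · simp [nc, Co, surv, h]
    · simp [nc, Co, surv, h]
  | succ n ih =>
    rw [show 2 ^ (n + 1) = 2 * 2 ^ n by ring, sum_two]
    have h1 : ∑ i ∈ Finset.range (2 ^ n), nc (n + 1) z (2 * (i:ℤ)) = 2 ^ n * surv n (step false z) := by
      rw [← ih]
      apply Finset.sum_congr rfl
      intro i _
      apply nc_congr
      simp only [Co, od_even, nb_even]
    have h2 : ∑ i ∈ Finset.range (2 ^ n), nc (n + 1) z (2 * (i:ℤ) + 1) = 2 ^ n * surv n (step true z) := by
      rw [← ih]
      by_cases h : z.1 = 0 ∧ z.2 % 2 = 1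
      · have := per_sum (2 ^ n) (by positivity) (nc n (step true z)) (nc_per n _) 1 isCoprime_one_left (z.2 / 2 + 1)
        rw [← this]
        apply Finset.sum_congr rfl
        intro i _
        have e1 : (1:ℤ) * i + (z.2 / 2 + 1) = i + z.2 / 2 + 1 := by ring
        rw [e1]
        apply nc_congr
        simp only [Co, od_odd, nb_odd, h, and_self, if_true]
      · have := per_sum (2 ^ n) (by positivity) (nc n (step true z)) (nc_per n _) 3 (cop2 n 3 (by norm_num)) 2
        rw [← this]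
        apply Finset.sum_congr rfl
        intro i _
        apply nc_congr
        simp only [Co, od_odd, nb_odd, h, if_false]
    rw [h1, h2, surv, av]
    ring

lemma sum_block (M : ℕ) (hM : 0 < M) (g : ℤ → ℝ) (hg : ∀ x j : ℤ, g (x + M * j) = g x) (q : ℕ) (s : ℤ) :
    ∑ i ∈ Finset.range (q * M), g (s + i) = q * ∑ i ∈ Finset.range M, g i := by
  induction q generalizing s with
  | zero => simp
  | succ q ih =>
    rw [show (q + 1) * M = q * M + M by ring, Finset.sum_range_add, ih]
    have := per_sum M hM g hg 1 isCoprime_one_left (s + (q * M : ℕ))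
    have h2 : ∑ x ∈ Finset.range M, g (s + ((q * M + x : ℕ) : ℤ)) = ∑ i ∈ Finset.range M, g i := by
      rw [← this]
      apply Finset.sum_congr rfl
      intro i _
      congr 1; push_cast; ring
    rw [h2]; push_cast; ring

lemma sum_Ico_int (g : ℤ → ℝ) (M : ℤ) (L : ℕ) :
    ∑ x ∈ Finset.Ico M (M + L), g x = ∑ i ∈ Finset.range L, g (M + i) := by
  induction L with
  | zero => simp
  | succ n ih =>
    rw [Finset.sum_range_succ, ← ih]
    have : Finset.Ico M (M + ((n + 1 : ℕ) : ℤ)) = insert (M + n) (Finset.Ico M (M + n)) := by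
      ext x
      simp only [Finset.mem_Ico, Finset.mem_insert]
      push_cast
      omega
    rw [this, Finset.sum_insert (by simp)]
    ring

open Classical in
lemma card_nc (t : ℕ) (z : ℕ × ℤ) (M : ℤ) (L : ℕ) :
    (((Finset.Ico M (M + L)).filter (fun x => ¬ Co t z x)).card : ℝ) = ∑ i ∈ Finset.range L, nc t z (M + i) := by
  rw [← sum_Ico_int, Finset.card_filter]
  push_cast
  apply Finset.sum_congr rfl
  intro x _
  unfold nc
  split_ifs <;> simp_all

open Classical in
/-- The proportion of pairs that have not met, upper bound. -/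
theorem card_le (t : ℕ) (z : ℕ × ℤ) (M : ℤ) (L : ℕ) (hL : 2 ^ t ≤ L) :
    (((Finset.Ico M (M + L)).filter (fun x => ¬ Co t z x)).card : ℝ) ≤ 2 * surv t z * L := by
  rw [card_nc]
  have h1 : L ≤ (L / 2 ^ t + 1) * 2 ^ t := by
    rw [mul_comm]; exact (Nat.lt_mul_div_succ L (by positivity)).le
  have h2 : ∑ i ∈ Finset.range L, nc t z (M + i) ≤ ∑ i ∈ Finset.range ((L / 2 ^ t + 1) * 2 ^ t), nc t z (M + i) :=
    Finset.sum_le_sum_of_subset_of_nonneg (Finset.range_mono h1) (fun _ _ _ => nc_nonneg _ _ _)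
  rw [sum_block (2 ^ t) (by positivity) _ (nc_per t z), sum_nc] at h2
  have h3 : ((L / 2 ^ t + 1 : ℕ) : ℝ) * 2 ^ t ≤ 2 * L := by
    have : (L / 2 ^ t + 1) * 2 ^ t ≤ 2 * L := by
      have := Nat.div_mul_le_self L (2 ^ t)
      nlinarith
    exact_mod_cast this
  have h4 := surv_nonneg t z
  nlinarith

open Classical in
/-- The proportion of pairs that have not met, lower bound. -/
theorem card_ge (t : ℕ) (z : ℕ × ℤ) (M : ℤ) (L : ℕ) (hL : 2 ^ t ≤ L) :
    surv t z / 2 * L ≤ (((Finset.Ico M (M + L)).filter (fun x => ¬ Co t z x)).card : ℝ) := by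
  rw [card_nc]
  have h1 : (L / 2 ^ t) * 2 ^ t ≤ L := Nat.div_mul_le_self L (2 ^ t)
  have h2 : ∑ i ∈ Finset.range ((L / 2 ^ t) * 2 ^ t), nc t z (M + i) ≤ ∑ i ∈ Finset.range L, nc t z (M + i) :=
    Finset.sum_le_sum_of_subset_of_nonneg (Finset.range_mono h1) (fun _ _ _ => nc_nonneg _ _ _)
  rw [sum_block (2 ^ t) (by positivity) _ (nc_per t z), sum_nc] at h2
  have h3 : (L:ℝ) ≤ 2 * (((L / 2 ^ t : ℕ) : ℝ) * 2 ^ t) := by
    have h5 : 1 ≤ L / 2 ^ t := Nat.div_pos hL (by positivity)
    have : L ≤ 2 * ((L / 2 ^ t) * 2 ^ t) := by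
      have := Nat.lt_div_mul_add (a := L) (b := 2 ^ t) (by positivity)
      nlinarith
    exact_mod_cast this
  have h4 := surv_nonneg t z
  nlinarith

open Classical in
/-- There are few accidental meetings. -/
theorem card_accident (t : ℕ) (z : ℕ × ℤ) (M : ℤ) (L : ℕ) :
    ((Finset.Ico M (M + L)).filter (fun x => ¬ Co t z x ∧ T^[t] x = T^[t] (3 ^ z.1 * x + z.2))).card ≤ 2 ^ t := by
  have hc : (Finset.Ico (0:ℤ) (2 ^ t)).card = 2 ^ t := by
    rw [Int.card_Ico, sub_zero]
    have : (2:ℤ) ^ t = ((2 ^ t : ℕ) : ℤ) := by push_cast; rfl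
    rw [this, Int.toNat_natCast]
  rw [← hc]
  apply Finset.card_le_card_of_injOn (fun x => x % 2 ^ t)
  · intro x _
    simp only [Finset.coe_Ico, Set.mem_Ico]
    exact ⟨Int.emod_nonneg _ (by positivity), Int.emod_lt_of_pos _ (by positivity)⟩
  · intro x hx y hy hxy
    simp only [Finset.coe_filter, Set.mem_ofPred_eq] at hx hy
    simp only at hxy
    have h1 : (2:ℤ) ^ t ∣ y - x := Int.ModEq.dvd hxy
    obtain ⟨j, hj⟩ := h1
    have h2 : y = x + 2 ^ t * j := by omega
    have h3 := accident t z x j hx.2.1 hx.2.2 (by rw [← h2]; exact hy.2.2)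
    rw [h3] at h2
    omega

end Pool.Agent.Q158.Pair
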