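import Pool.Agent.Q158.Pair.Chain

/-! # The expected waiting time until the parities of the pair differ -/

namespace Pool.Agent.Q158.Pair

/-- two-adic valuation of `3 ^ a - 1`, that is of `2 e a` -/
def w0 (a : ℕ) : ℕ := padicValNat 2 (3 ^ a - 1)

/-- The expected time until the parities differ. -/
def w (z : ℕ × ℤ) : ℕ :=
  if z.1 = 0 then padicValInt 2 z.2
  else if (2:ℤ) ^ (w0 z.1) ∣ z.2 then w0 z.1 + 1 else padicValInt 2 z.2

lemma val_eq (v : ℕ) (o : ℤ) (ho : o % 2 = 1) : padicValInt 2 (2 ^ v * o) = v := by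
  rw [padicValInt, Int.natAbs_mul, Int.natAbs_pow]
  have h1 : (2:ℤ).natAbs = 2 := rfl
  rw [h1]
  have ho0 : o.natAbs ≠ 0 := by omega
  rw [padicValNat.mul (by positivity) ho0, padicValNat.prime_pow, padicValNat.eq_zero_of_not_dvd (by omega), add_zero]

lemma decomp (k : ℤ) (hk : k ≠ 0) : ∃ (v : ℕ) (o : ℤ), o % 2 = 1 ∧ k = 2 ^ v * o := by
  obtain ⟨v, m, hm, h⟩ := Nat.exists_eq_two_pow_mul_odd (n := k.natAbs) (by omega)
  rcases le_or_gt 0 k with h0 | h0
  · refine ⟨v, m, by have := Nat.odd_iff.mp hm; omega, ?_⟩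
    have : k = (k.natAbs : ℤ) := by omega
    rw [this, h]; push_cast; ring
  · refine ⟨v, -m, by have := Nat.odd_iff.mp hm; omega, ?_⟩
    have : k = -(k.natAbs : ℤ) := by omega
    rw [this, h]; push_cast; ring

lemma dvd_iff_pow (v W : ℕ) (o : ℤ) (ho : o % 2 = 1) : (2:ℤ) ^ W ∣ 2 ^ v * o ↔ W ≤ v := by
  constructor
  · intro h
    by_contra hc
    push Not at hc
    obtain ⟨j, rfl⟩ := Nat.exists_eq_add_of_lt hc
    have h1 : (2:ℤ) ^ (v + j + 1) = 2 ^ v * (2 * 2 ^ j) := by ring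
    rw [h1] at h
    have h2 := Int.dvd_of_mul_dvd_mul_left (by positivity) h
    have h3 : (2:ℤ) ∣ o := dvd_trans (Dvd.intro _ rfl) h2
    omega
  · intro h
    exact Dvd.dvd.mul_right (pow_dvd_pow 2 h) o

/-- `e a` for `a ≥ 1` has valuation `w0 a - 1`. -/
lemma e_decomp (a : ℕ) (ha : a ≠ 0) : ∃ (W : ℕ) (κ : ℤ), κ % 2 = 1 ∧ e a = 2 ^ W * κ ∧ w0 a = W + 1 := by
  have hs := e_spec a
  have h3 : (3:ℤ) ≤ 3 ^ a := by
    calc (3:ℤ) = 3 ^ 1 := by norm_num
      _ ≤ 3 ^ a := pow_le_pow_right₀ (by norm_num) (by omega)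
  have h0 : e a ≠ 0 := by omega
  obtain ⟨W, κ, hκ, h⟩ := decomp (e a) h0
  refine ⟨W, κ, hκ, h, ?_⟩
  have h4 : ((3 ^ a - 1 : ℕ) : ℤ) = 2 ^ (W + 1) * κ := by
    have : 1 ≤ 3 ^ a := Nat.one_le_pow _ _ (by norm_num)
    push_cast [this]
    rw [← hs, h]; ring
  have h5 := val_eq (W + 1) κ hκ
  rw [← h4, padicValInt, Int.natAbs_natCast] at h5
  exact h5

lemma w_odd (a : ℕ) (k : ℤ) : w (a, 2 * k + 1) = 0 := by
  have h1 : padicValInt 2 (2 * k + 1) = 0 := by
    have := val_eq 0 (2 * k + 1) (by omega)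
    simpa using this
  unfold w
  split_ifs with h h'
  · exact h1
  · exfalso
    obtain ⟨W, κ, _, _, hw⟩ := e_decomp a h
    have h2 : (2:ℤ) ∣ 2 ^ (w0 a) := dvd_pow_self 2 (by omega)
    have := dvd_trans h2 h'
    simp only at this
    omega
  · exact h1

lemma w_zero_zero : w (0, 0) = 0 := by simp [w]

lemma av_w_zero (k : ℤ) (hk : k ≠ 0) : av (fun z => (w z : ℝ)) (0, 2 * k) = w (0, 2 * k) - 1 := by
  rw [av_even]
  obtain ⟨v, o, ho, rfl⟩ := decomp k hk
  have h1 : w (0, 2 ^ v * o) = v := by simp only [w, if_true]; exact val_eq v o ho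
  have h2 : w (0, 3 * (2 ^ v * o) - e 0) = v := by
    simp only [w, if_true, e, sub_zero]
    have : 3 * (2 ^ v * o) = 2 ^ v * (3 * o) := by ring
    rw [this]; exact val_eq v (3 * o) (by omega)
  have h3 : w (0, 2 * (2 ^ v * o)) = v + 1 := by
    simp only [w, if_true]
    have : 2 * (2 ^ v * o) = 2 ^ (v + 1) * o := by ring
    rw [this]; exact val_eq (v + 1) o ho
  rw [h1, h2, h3]; push_cast; ring

lemma w_of_decomp (a : ℕ) (ha : a ≠ 0) (W : ℕ) (hW : w0 a = W + 1) (v : ℕ) (o : ℤ) (ho : o % 2 = 1) :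
    w (a, 2 ^ v * o) = if W + 1 ≤ v then W + 2 else v := by
  simp only [w, ha, if_false, hW]
  rw [val_eq v o ho]
  simp only [dvd_iff_pow v (W + 1) o ho]

lemma w_of_zero (a : ℕ) (ha : a ≠ 0) (W : ℕ) (hW : w0 a = W + 1) : w (a, 0) = W + 2 := by
  simp [w, ha, hW]

lemma w_dvd (a : ℕ) (ha : a ≠ 0) (W : ℕ) (hW : w0 a = W + 1) (b : ℤ) :
    w (a, 2 ^ W * b) = if b % 2 = 0 then W + 2 else W := by
  by_cases hb : b = 0
  · rw [hb, mul_zero, w_of_zero a ha W hW]; simp
  · obtain ⟨v, o, ho, rfl⟩ := decomp b hb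
    have : (2:ℤ) ^ W * (2 ^ v * o) = 2 ^ (W + v) * o := by ring
    rw [this, w_of_decomp a ha W hW _ _ ho]
    rcases v with _ | v
    · simp [ho]
    · have h1 : (2 ^ (v + 1) * o) % 2 = 0 := by
        have : (2:ℤ) ^ (v + 1) * o = 2 * (2 ^ v * o) := by ring
        omega
      simp [h1]

lemma av_w_succ (a : ℕ) (k : ℤ) : av (fun z => (w z : ℝ)) (a + 1, 2 * k) = w (a + 1, 2 * k) - 1 := by
  rw [av_even]
  obtain ⟨W, κ, hκ, he, hW⟩ := e_decomp (a + 1) (by omega)
  have ha : a + 1 ≠ 0 := by omega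
  by_cases hd : (2:ℤ) ^ W ∣ k
  · obtain ⟨b, rfl⟩ := hd
    have h1 := w_dvd (a + 1) ha W hW b
    have h2 : w (a + 1, 3 * (2 ^ W * b) - e (a + 1)) = if (3 * b - κ) % 2 = 0 then W + 2 else W := by
      rw [he]
      have : 3 * (2 ^ W * b) - 2 ^ W * κ = 2 ^ W * (3 * b - κ) := by ring
      rw [this]; exact w_dvd (a + 1) ha W hW _
    have h3 : w (a + 1, 2 * (2 ^ W * b)) = W + 2 := by
      have : 2 * (2 ^ W * b) = 2 ^ W * (2 * b) := by ring
      rw [this, w_dvd (a + 1) ha W hW]; simp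
    rw [h1, h2, h3]
    by_cases hb : b % 2 = 0
    · have : ¬ (3 * b - κ) % 2 = 0 := by omega
      simp only [hb, this, if_true, if_false]; push_cast; ring
    · have : (3 * b - κ) % 2 = 0 := by omega
      simp only [hb, this, if_true, if_false]; push_cast; ring
  · have hk : k ≠ 0 := by rintro rfl; exact hd (dvd_zero _)
    obtain ⟨v, o, ho, rfl⟩ := decomp k hk
    rw [dvd_iff_pow v W o ho] at hd
    have h1 := w_of_decomp (a + 1) ha W hW v o ho
    have h2 : w (a + 1, 3 * (2 ^ v * o) - e (a + 1)) = v := by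
      rw [he]
      obtain ⟨j, hj⟩ := Nat.exists_eq_add_of_lt (show v < W by omega)
      have : 3 * (2 ^ v * o) - 2 ^ W * κ = 2 ^ v * (3 * o - 2 * (2 ^ j * κ)) := by
        rw [hj]; ring
      rw [this, w_of_decomp (a + 1) ha W hW v _ (by omega)]
      simp; omega
    have h3 : w (a + 1, 2 * (2 ^ v * o)) = v + 1 := by
      have : 2 * (2 ^ v * o) = 2 ^ (v + 1) * o := by ring
      rw [this, w_of_decomp (a + 1) ha W hW (v + 1) o ho]
      simp; omega
    rw [h1, h2, h3, if_neg (by omega)]; push_cast; ring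

/-- Bound for the waiting time. -/
lemma w0_le (a : ℕ) (ha : a ≠ 0) : w0 a ≤ padicValNat 2 a + 2 := by
  rcases Nat.even_or_odd a with h | h
  · have := padicValNat.pow_two_sub_pow (x := 3) (y := 1) (by norm_num) (by norm_num) (by norm_num) ha h
    have h4 : padicValNat 2 (3 + 1) = 2 := by
      have := padicValNat.prime_pow (p := 2) 2
      simpa using this
    have h2 : padicValNat 2 (3 - 1) = 1 := by
      have := padicValNat.prime_pow (p := 2) 1
      simpa using this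
    rw [h4, h2, one_pow] at this
    unfold w0; omega
  · -- a odd : 3 ^ a - 1 = 2 mod 4
    have h1 : (3 ^ a) % 4 = 3 := by
      obtain ⟨j, rfl⟩ := h
      rw [pow_succ, pow_mul, Nat.mul_mod, Nat.pow_mod]
      norm_num
    have h2 : ¬ 2 ^ 2 ∣ 3 ^ a - 1 := by
      intro hd
      have h3 : 1 ≤ 3 ^ a := Nat.one_le_pow _ _ (by norm_num)
      omega
    have h3 : padicValNat 2 (3 ^ a - 1) < 2 := by
      by_contra hc
      push Not at hc
      have h3 : 3 ^ a - 1 ≠ 0 := by omega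
      exact h2 ((padicValNat_dvd_iff_le h3).mpr hc)
    unfold w0; omega

lemma w_le (a : ℕ) (ha : a ≠ 0) (β : ℤ) : w (a, β) ≤ padicValNat 2 a + 3 := by
  obtain ⟨W, κ, _, _, hW⟩ := e_decomp a ha
  have h0 := w0_le a ha
  by_cases hβ : β = 0
  · rw [hβ, w_of_zero a ha W hW]; omega
  · obtain ⟨v, o, ho, rfl⟩ := decomp β hβ
    rw [w_of_decomp a ha W hW v o ho]
    split_ifs <;> omega

lemma two_pow_ge (v : ℕ) : v ^ 2 ≤ 4 * 2 ^ v := by
  by_cases h : v < 4
  · interval_cases v <;> norm_num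
  · push Not at h
    induction v, h using Nat.le_induction with
    | base => norm_num
    | succ n hn ih =>
      have h4 : 4 * 2 ^ (n + 1) = 2 * (4 * 2 ^ n) := by ring
      rw [h4]
      nlinarith

/-- For `a = 0`: the waiting time is at most `2 √|β|`. -/
lemma w_zero_le (β : ℤ) : (w (0, β) : ℝ) ≤ 2 * √(|(β : ℝ)|) := by
  by_cases hβ : β = 0
  · rw [hβ, w_zero_zero]; simp
  · obtain ⟨v, o, ho, rfl⟩ := decomp β hβ
    have h1 : w (0, 2 ^ v * o) = v := by simp only [w, if_true]; exact val_eq v o ho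
    rw [h1]
    have h2 : (2:ℝ) ^ v ≤ |((2 ^ v * o : ℤ) : ℝ)| := by
      push_cast
      rw [abs_mul, abs_pow, abs_of_pos (by norm_num : (0:ℝ) < 2)]
      have ho1 : (1:ℝ) ≤ |(o:ℝ)| := by
        have : (1:ℤ) ≤ |o| := Int.one_le_abs (by omega)
        exact_mod_cast this
      have : (0:ℝ) < 2 ^ v := by positivity
      nlinarith
    have h3 : (v:ℝ) ≤ √(4 * 2 ^ v) := by
      apply Real.le_sqrt_of_sq_le
      exact_mod_cast two_pow_ge v
    have h4 : √(4 * 2 ^ v) = 2 * √((2:ℝ) ^ v) := by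
      rw [Real.sqrt_mul (by norm_num)]
      have : √(4:ℝ) = 2 := by
        rw [show (4:ℝ) = 2 ^ 2 by norm_num]; exact Real.sqrt_sq (by norm_num)
      rw [this]
    rw [h4] at h3
    have h5 := Real.sqrt_le_sqrt h2
    linarith

/-- Sum of the valuations. -/
lemma sum_val (n : ℕ) : ∑ i ∈ Finset.Icc 1 n, padicValNat 2 i ≤ n := by
  have h : ∑ i ∈ Finset.Icc 1 n, padicValNat 2 i = padicValNat 2 n.factorial := by
    induction n with
    | zero => simp
    | succ n ih =>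
      rw [Finset.sum_Icc_succ_top (by omega), ih, Nat.factorial_succ, padicValNat.mul (by omega) (Nat.factorial_ne_zero n)]
      ring
  rw [h]
  have := sub_one_mul_padicValNat_factorial (p := 2) n
  omega

end Pool.Agent.Q158.Pair
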