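import Pool.Agent.Q158.Pair.Path
import Pool.Agent.Q158.Pair.W

/-! # A Lyapunov function for the pair chain -/

namespace Pool.Agent.Q158.Pair

/-- `√(|β| / 3 ^ a)`. -/
noncomputable def sq (z : ℕ × ℤ) : ℝ := √(|(z.2 : ℝ)| / 3 ^ z.1)

lemma sq_nonneg' (z : ℕ × ℤ) : 0 ≤ sq z := Real.sqrt_nonneg _

lemma sqrt_bd {x y c d C D : ℝ} (hx : 0 ≤ x) (hC0 : 0 ≤ C) (hD0 : 0 ≤ D) (hC : c ≤ C ^ 2)
    (hD : d ≤ D ^ 2) (h : y ≤ c * x + d) : √y ≤ C * √x + D := by
  have h0 := Real.sq_sqrt hx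
  have h1 := Real.sqrt_nonneg x
  have h2 : 0 ≤ C * √x * D := by positivity
  have h3 : c * x ≤ C ^ 2 * x := mul_le_mul_of_nonneg_right hC hx
  have h4 : y ≤ (C * √x + D) ^ 2 := by nlinarith
  calc √y ≤ √((C * √x + D) ^ 2) := Real.sqrt_le_sqrt h4
    _ = _ := Real.sqrt_sq (by positivity)

lemma e_real (a : ℕ) : ((e a : ℤ) : ℝ) = (3 ^ a - 1) / 2 := by
  have := e_spec a
  have h : (2 * (e a : ℝ) + 1) = 3 ^ a := by exact_mod_cast this
  linarith

lemma e_nonneg_real (a : ℕ) : (0:ℝ) ≤ ((e a : ℤ) : ℝ) := by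
  rw [e_real]
  have : (1:ℝ) ≤ 3 ^ a := one_le_pow₀ (by norm_num)
  linarith

lemma sq_even_false (a : ℕ) (k : ℤ) : sq (a, k) ≤ 0.7072 * sq (a, 2 * k) := by
  have h3 : (0:ℝ) < 3 ^ a := by positivity
  have := sqrt_bd (x := |((2 * k : ℤ) : ℝ)| / 3 ^ a) (y := |(k : ℝ)| / 3 ^ a) (c := 1 / 2) (d := 0) (C := 0.7072) (D := 0)
    (by positivity) (by norm_num) le_rfl (by norm_num) (by norm_num)
    (by push_cast; rw [abs_mul, abs_two]; apply le_of_eq; ring)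
  simpa [sq] using this

lemma sq_even_true (a : ℕ) (k : ℤ) : sq (a, 3 * k - e a) ≤ 1.2248 * sq (a, 2 * k) + 0.7072 := by
  have h3 : (0:ℝ) < 3 ^ a := by positivity
  refine sqrt_bd (x := |((2 * k : ℤ) : ℝ)| / 3 ^ a) (c := 3 / 2) (d := 1 / 2)
    (by positivity) (by norm_num) (by norm_num) (by norm_num) (by norm_num) ?_
  push_cast
  rw [abs_mul, abs_two, div_le_iff₀ h3]
  have h1 : |3 * (k:ℝ) - (e a : ℝ)| ≤ 3 * |(k:ℝ)| + (e a : ℝ) := by
    have := abs_sub (3 * (k:ℝ)) (e a : ℝ)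
    rw [abs_mul, abs_of_nonneg (e_nonneg_real a)] at this
    have h3' : |(3:ℝ)| = 3 := by norm_num
    rwa [h3'] at this
  rw [e_real] at h1
  have h2 : (3 / 2 * (2 * |(k:ℝ)| / 3 ^ a) + 1 / 2) * 3 ^ a = 3 * |(k:ℝ)| + 3 ^ a / 2 := by field_simp
  rw [h2, e_real]
  linarith

lemma sq_even_true_zero (k : ℤ) : sq (0, 3 * k - e 0) ≤ 1.2248 * sq (0, 2 * k) := by
  have := sqrt_bd (x := |((2 * k : ℤ) : ℝ)|) (y := |((3 * k : ℤ) : ℝ)|) (c := 3 / 2) (d := 0) (C := 1.2248) (D := 0)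
    (by positivity) (by norm_num) le_rfl (by norm_num) (by norm_num)
    (by push_cast; rw [abs_mul, abs_mul, abs_two]
        have h3' : |(3:ℝ)| = 3 := by norm_num
        rw [h3']; apply le_of_eq; ring)
  simpa [sq, e] using this

lemma sq_zero_false (k : ℤ) : sq (1, 3 * k + 2) ≤ 0.7072 * sq (0, 2 * k + 1) + 0.4083 := by
  refine sqrt_bd (x := |((2 * k + 1 : ℤ) : ℝ)| / 3 ^ 0) (c := 1 / 2) (d := 1 / 6)
    (by positivity) (by norm_num) (by norm_num) (by norm_num) (by norm_num) ?_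
  push_cast
  have h : (3 * (k:ℝ) + 2) = 3 / 2 * (2 * k + 1) + 1 / 2 := by ring
  rw [h]
  have := abs_add_le (3 / 2 * (2 * (k:ℝ) + 1)) (1 / 2)
  rw [abs_mul, abs_of_pos (by norm_num : (0:ℝ) < 3 / 2), abs_of_pos (by norm_num : (0:ℝ) < 1 / 2)] at this
  norm_num at this ⊢
  linarith

lemma sq_zero_true (k : ℤ) : sq (1, -3 * k - 1) ≤ 0.7072 * sq (0, 2 * k + 1) + 0.4083 := by
  refine sqrt_bd (x := |((2 * k + 1 : ℤ) : ℝ)| / 3 ^ 0) (c := 1 / 2) (d := 1 / 6)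
    (by positivity) (by norm_num) (by norm_num) (by norm_num) (by norm_num) ?_
  push_cast
  have h : (-3 * (k:ℝ) - 1) = -(3 / 2 * (2 * k + 1)) + 1 / 2 := by ring
  rw [h]
  have := abs_add_le (-(3 / 2 * (2 * (k:ℝ) + 1))) (1 / 2)
  rw [abs_neg, abs_mul, abs_of_pos (by norm_num : (0:ℝ) < 3 / 2), abs_of_pos (by norm_num : (0:ℝ) < 1 / 2)] at this
  norm_num at this ⊢
  linarith

lemma sq_succ_false (a : ℕ) (k : ℤ) : sq (a + 2, 3 * k + 2) ≤ 0.7072 * sq (a + 1, 2 * k + 1) + 0.2358 := by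
  have h3 : (1:ℝ) ≤ 3 ^ a := one_le_pow₀ (by norm_num)
  refine sqrt_bd (x := |((2 * k + 1 : ℤ) : ℝ)| / 3 ^ (a + 1)) (c := 1 / 2) (d := 1 / 18)
    (by positivity) (by norm_num) (by norm_num) (by norm_num) (by norm_num) ?_
  push_cast
  have h : (3 * (k:ℝ) + 2) = 3 / 2 * (2 * k + 1) + 1 / 2 := by ring
  rw [h]
  have := abs_add_le (3 / 2 * (2 * (k:ℝ) + 1)) (1 / 2)
  rw [abs_mul, abs_of_pos (by norm_num : (0:ℝ) < 3 / 2), abs_of_pos (by norm_num : (0:ℝ) < 1 / 2)] at this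
  rw [div_le_iff₀ (by positivity)]
  have h2 : (1 / 2 * (|2 * (k:ℝ) + 1| / 3 ^ (a + 1)) + 1 / 18) * 3 ^ (a + 2) = 3 / 2 * |2 * (k:ℝ) + 1| + 3 ^ a / 2 := by
    rw [pow_succ, pow_succ]; field_simp; ring
  rw [h2]
  linarith

lemma sq_succ_true (a : ℕ) (k : ℤ) : sq (a, k - e a) ≤ 1.2248 * sq (a + 1, 2 * k + 1) + 0.7072 := by
  have h3 : (1:ℝ) ≤ 3 ^ a := one_le_pow₀ (by norm_num)
  refine sqrt_bd (x := |((2 * k + 1 : ℤ) : ℝ)| / 3 ^ (a + 1)) (c := 3 / 2) (d := 1 / 2)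
    (by positivity) (by norm_num) (by norm_num) (by norm_num) (by norm_num) ?_
  push_cast
  have h : ((k:ℝ) - (e a : ℝ)) = 1 / 2 * (2 * k + 1) - 3 ^ a / 2 := by rw [e_real]; ring
  rw [h]
  have := abs_sub (1 / 2 * (2 * (k:ℝ) + 1)) (3 ^ a / 2)
  rw [abs_mul, abs_of_pos (by norm_num : (0:ℝ) < 1 / 2), abs_of_pos (by positivity : (0:ℝ) < 3 ^ a / 2)] at this
  rw [div_le_iff₀ (by positivity)]
  have h2 : (3 / 2 * (|2 * (k:ℝ) + 1| / 3 ^ (a + 1)) + 1 / 2) * 3 ^ a = 1 / 2 * |2 * (k:ℝ) + 1| + 3 ^ a / 2 := by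
    rw [pow_succ]; field_simp
  rw [h2]
  linarith

/-- The mean of `sq` contracts. -/
lemma av_sq (z : ℕ × ℤ) : av sq z ≤ 0.966 * sq z + 1 / 2 := by
  rcases state_cases z with ⟨k, rfl⟩ | ⟨a, k, rfl⟩ | ⟨k, rfl⟩ | ⟨a, k, rfl⟩
  · rw [av_even]
    linarith [sq_even_false 0 k, sq_even_true_zero k, sq_nonneg' (0, 2 * k)]
  · rw [av_even]
    linarith [sq_even_false (a + 1) k, sq_even_true (a + 1) k, sq_nonneg' (a + 1, 2 * k)]
  · rw [av_odd_zero]
    linarith [sq_zero_false k, sq_zero_true k, sq_nonneg' (0, 2 * k + 1)]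
  · rw [av_odd_succ]
    linarith [sq_succ_false a k, sq_succ_true a k, sq_nonneg' (a + 1, 2 * k + 1)]

/-- The Lyapunov function. -/
noncomputable def F (z : ℕ × ℤ) : ℝ :=
  (9 / 10) ^ z.1 * (sq z + (if z.1 = 0 then 0 else 0.36 * (w z : ℝ))) + 28000 * (1 - (19 / 20) ^ z.1)

lemma F_zero (β : ℤ) : F (0, β) = sq (0, β) := by simp [F]

lemma F_succ (a : ℕ) (β : ℤ) : F (a + 1, β) =
    (9 / 10) ^ (a + 1) * (sq (a + 1, β) + 0.36 * (w (a + 1, β) : ℝ)) + 28000 * (1 - (19 / 20) ^ (a + 1)) := by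
  simp [F]

lemma val_le (a : ℕ) : padicValNat 2 a ≤ a := by
  rcases Nat.eq_zero_or_pos a with h | h
  · simp [h]
  · have h1 : 2 ^ padicValNat 2 a ≤ a := Nat.le_of_dvd h pow_padicValNat_dvd
    exact (Nat.lt_two_pow_self).le.trans h1

lemma w_le' (a : ℕ) (ha : a ≠ 0) (β : ℤ) : (w (a, β) : ℝ) ≤ a + 3 := by
  have h1 := w_le a ha β
  have h2 := val_le a
  exact_mod_cast (by omega : w (a, β) ≤ a + 3)

lemma F_le (z : ℕ × ℤ) : F z ≤ sq z + 28005 := by
  obtain ⟨a, β⟩ := z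
  rcases a with _ | a
  · rw [F_zero]; linarith
  · rw [F_succ]
    have h1 := w_le' (a + 1) (by omega) β
    have h2 : ((9:ℝ) / 10) ^ (a + 1) ≤ 1 := pow_le_one₀ (by norm_num) (by norm_num)
    have h3 : (0:ℝ) ≤ (19 / 20) ^ (a + 1) := by positivity
    have h4 : (0:ℝ) < (9 / 10) ^ (a + 1) := by positivity
    have h5 : ((9:ℝ) / 10) ^ (a + 1) * (a + 1) ≤ 9 := by
      have hb := one_add_mul_le_pow (a := (1 / 9 : ℝ)) (by norm_num) (a + 1)
      have he : ((9:ℝ) / 10) ^ (a + 1) * (1 + 1 / 9) ^ (a + 1) = 1 := by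
        rw [← mul_pow]; norm_num
      push_cast at hb
      have h8 := mul_le_mul_of_nonneg_left hb h4.le
      rw [he] at h8
      nlinarith
    have h6 : ((9:ℝ) / 10) ^ (a + 1) * (w (a + 1, β) : ℝ) ≤ (9 / 10) ^ (a + 1) * ((a + 1) + 3) := by
      apply mul_le_mul_of_nonneg_left _ h4.le
      push_cast at h1; linarith
    have h7 : ((9:ℝ) / 10) ^ (a + 1) * sq (a + 1, β) ≤ sq (a + 1, β) := by
      have := sq_nonneg' (a + 1, β)
      nlinarith
    nlinarith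

lemma F_nonneg (z : ℕ × ℤ) : 0 ≤ F z := by
  obtain ⟨a, β⟩ := z
  rcases a with _ | a
  · rw [F_zero]; exact sq_nonneg' _
  · rw [F_succ]
    have h1 := sq_nonneg' (a + 1, β)
    have h3 : ((19:ℝ) / 20) ^ (a + 1) ≤ 1 := pow_le_one₀ (by norm_num) (by norm_num)
    have : (0:ℝ) ≤ (9 / 10) ^ (a + 1) * (sq (a + 1, β) + 0.36 * (w (a + 1, β) : ℝ)) := by positivity
    linarith

lemma av_F_even (a : ℕ) (k : ℤ) : av F (a, 2 * k) ≤ F (a, 2 * k) := by
  rcases a with _ | a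
  · rw [av_even, F_zero, F_zero, F_zero]
    linarith [sq_even_false 0 k, sq_even_true_zero k, sq_nonneg' (0, 2 * k)]
  · rw [av_even, F_succ, F_succ, F_succ]
    have hw := av_w_succ a k
    rw [av_even] at hw
    have h4 : (0:ℝ) < (9 / 10) ^ (a + 1) := by positivity
    have h1 : (sq (a + 1, k) + 0.36 * (w (a + 1, k) : ℝ) + (sq (a + 1, 3 * k - e (a + 1)) +
        0.36 * (w (a + 1, 3 * k - e (a + 1)) : ℝ))) / 2 ≤ sq (a + 1, 2 * k) + 0.36 * (w (a + 1, 2 * k) : ℝ) := by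
      linarith [sq_even_false (a + 1) k, sq_even_true (a + 1) k, sq_nonneg' (a + 1, 2 * k)]
    have h2 := mul_le_mul_of_nonneg_left h1 h4.le
    linarith

lemma av_F_zero (k : ℤ) : av F (0, 2 * k + 1) ≤ F (0, 2 * k + 1) - 0.3635 * sq (0, 2 * k + 1) + 1402 := by
  rw [av_odd_zero, F_zero]
  have h1 := F_succ 0 (3 * k + 2)
  have h2 := F_succ 0 (-3 * k - 1)
  simp only [zero_add] at h1 h2
  rw [h1, h2]
  have h3 : (w (1, 3 * k + 2) : ℝ) ≤ 3 := by
    have := w_le 1 (by norm_num) (3 * k + 2)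
    simp at this
    exact_mod_cast this
  have h4 : (w (1, -3 * k - 1) : ℝ) ≤ 3 := by
    have := w_le 1 (by norm_num) (-3 * k - 1)
    simp at this
    have h' : (w (1, -3 * k - 1) : ℕ) ≤ 3 := by simpa using this
    exact_mod_cast h'
  have h5 := sq_zero_false k
  have h6 := sq_zero_true k
  have h7 := sq_nonneg' (0, 2 * k + 1)
  rw [pow_one, pow_one]
  linarith

lemma av_F_succ (a : ℕ) (k : ℤ) :
    av F (a + 1, 2 * k + 1) ≤ F (a + 1, 2 * k + 1) - 0.0013 * ((9 / 10) ^ (a + 1) * sq (a + 1, 2 * k + 1)) := by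
  rw [av_odd_succ, F_succ (a + 1), F_succ a, w_odd]
  have h0 : F (a, k - e a) ≤ (9 / 10) ^ a * (sq (a, k - e a) + 0.36 * (a + 3)) + 28000 * (1 - (19 / 20) ^ a) := by
    rcases a with _ | a
    · rw [F_zero]; norm_num
    · rw [F_succ]
      have := w_le' (a + 1) (by omega) (k - e (a + 1))
      have h4 : (0:ℝ) < (9 / 10) ^ (a + 1) := by positivity
      have h1 : sq (a + 1, k - e (a + 1)) + 0.36 * (w (a + 1, k - e (a + 1)) : ℝ) ≤
          sq (a + 1, k - e (a + 1)) + 0.36 * (((a + 1 : ℕ) : ℝ) + 3) := by linarith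
      have := mul_le_mul_of_nonneg_left h1 h4.le
      linarith
  have hw := w_le' (a + 2) (by omega) (3 * k + 2)
  have h1 := sq_succ_false a k
  have h2 := sq_succ_true a k
  have hs := sq_nonneg' (a + 1, 2 * k + 1)
  set s := sq (a + 1, 2 * k + 1) with hsdef
  set P : ℝ := (9 / 10) ^ a with hP
  set M : ℝ := (19 / 20) ^ a with hM
  have hP0 : 0 < P := by positivity
  have hM0 : 0 < M := by positivity
  have e1 : ((9:ℝ) / 10) ^ (a + 1) = 0.9 * P := by rw [hP, pow_succ]; ring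
  have e2 : ((9:ℝ) / 10) ^ (a + 1 + 1) = 0.81 * P := by rw [hP, pow_succ, pow_succ]; ring
  have e3 : ((19:ℝ) / 20) ^ (a + 1) = 0.95 * M := by rw [hM, pow_succ]; ring
  have e4 : ((19:ℝ) / 20) ^ (a + 1 + 1) = 0.9025 * M := by rw [hM, pow_succ, pow_succ]; ring
  have hPM : P * (a + 1) ≤ 18 * M := by
    have hb := one_add_mul_le_pow (a := (1 / 18 : ℝ)) (by norm_num) a
    have he : P * (1 + 1 / 18) ^ a = M := by
      rw [hP, hM, ← mul_pow]; norm_num
    have h5 : P * (1 + a * (1 / 18)) ≤ M := by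
      rw [← he]; exact mul_le_mul_of_nonneg_left hb hP0.le
    nlinarith
  rw [e1, e2, e3, e4]
  have h6 : 0.81 * P * (sq (a + 2, 3 * k + 2) + 0.36 * (w (a + 2, 3 * k + 2) : ℝ)) ≤
      0.81 * P * (0.7072 * s + 0.2358 + 0.36 * ((a:ℝ) + 5)) := by
    apply mul_le_mul_of_nonneg_left _ (by positivity)
    push_cast at hw; linarith
  have h7 : P * (sq (a, k - e a) + 0.36 * ((a:ℝ) + 3)) ≤ P * (1.2248 * s + 0.7072 + 0.36 * ((a:ℝ) + 3)) := by
    apply mul_le_mul_of_nonneg_left _ hP0.le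
    linarith
  have hPs : 0 ≤ P * s := by positivity
  have hPa : 0 ≤ P * a := by positivity
  have e5 : a + 1 + 1 = a + 2 := rfl
  rw [e5]
  push_cast
  nlinarith

/-- Large radius. -/
def Rc : ℕ := 16000000

lemma av_F (z : ℕ × ℤ) : zo z + av F z ≤ F z + 1403 * good Rc z := by
  have hg := good_nonneg Rc z
  have hcase : ∀ (a : ℕ) (k : ℤ), zo (a, 2 * k) = 0 := by
    intro a k
    have : ¬ (2 * k) % 2 = 1 := by omega
    simp [zo]
  rcases state_cases z with ⟨k, rfl⟩ | ⟨a, k, rfl⟩ | ⟨k, rfl⟩ | ⟨a, k, rfl⟩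
  · rw [hcase]; linarith [av_F_even 0 k]
  · rw [hcase]; linarith [av_F_even (a + 1) k]
  · have hz1 : zo (0, 2 * k + 1) = 1 := by
      have : (2 * k + 1) % 2 = 1 := by omega
      simp [zo, this]
    rw [hz1]
    have h1 := av_F_zero k
    have hs := sq_nonneg' (0, 2 * k + 1)
    by_cases hR : |2 * k + 1| ≤ (Rc : ℤ)
    · have hz2 : good Rc (0, 2 * k + 1) = 1 := by
        have : (2 * k + 1) % 2 = 1 := by omega
        simp only [good, this, hR]; simp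
      rw [hz2]; linarith
    · push Not at hR
      have h2 : (4000:ℝ) ≤ sq (0, 2 * k + 1) := by
        unfold sq
        apply Real.le_sqrt_of_sq_le
        simp only [pow_zero, div_one]
        have : ((Rc : ℤ) : ℝ) < ((|2 * k + 1| : ℤ) : ℝ) := by exact_mod_cast hR
        rw [Int.cast_abs] at this
        have hR' : ((Rc : ℤ) : ℝ) = 16000000 := by norm_num [Rc]
        rw [hR'] at this
        norm_num
        push_cast at this
        linarith
      linarith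
  · have hz1 : zo (a + 1, 2 * k + 1) = 0 := by simp [zo]
    rw [hz1]
    have h1 := av_F_succ a k
    have hs := sq_nonneg' (a + 1, 2 * k + 1)
    have : (0:ℝ) ≤ 0.0013 * ((9 / 10) ^ (a + 1) * sq (a + 1, 2 * k + 1)) := by positivity
    linarith

lemma acc_zo_le_aux (t : ℕ) (z : ℕ × ℤ) : acc zo t z ≤ F z + 1403 * acc (good Rc) t z := by
  induction t generalizing z with
  | zero => simp only [acc]; linarith [F_nonneg z]
  | succ n ih =>
    simp only [acc]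
    have h1 := av_mono (f := acc zo n) (g := fun z => F z + 1403 * acc (good Rc) n z) ih z
    have h2 : av (fun z => F z + 1403 * acc (good Rc) n z) z = av F z + 1403 * av (acc (good Rc) n) z := by
      simp only [av]; ring
    rw [h2] at h1
    linarith [av_F z]

/-- The expected number of zero crossings is at most `sq z` plus a constant. -/
theorem acc_zo_le : ∃ B : ℝ, 0 ≤ B ∧ ∀ t z, acc zo t z ≤ sq z + B := by
  obtain ⟨B, hB, h⟩ := acc_good Rc
  refine ⟨28005 + 1403 * B, by positivity, fun t z => ?_⟩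
  linarith [acc_zo_le_aux t z, F_le z, h t z]

end Pool.Agent.Q158.Pair
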