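import Pool.Agent.Q158.Pair.Count

/-! # Rates of meeting of trajectories of the 3x+1 map -/

namespace Pool.Agent.Q158.Pair

lemma sum_block' (M : ℕ) (hM : 0 < M) (g : ℤ → ℝ) (hg : ∀ x j : ℤ, g (x + M * j) = g x) (u : ℤ)
    (hu : IsCoprime u (M:ℤ)) (q : ℕ) (s : ℤ) :
    ∑ i ∈ Finset.range (q * M), g (u * i + s) = q * ∑ i ∈ Finset.range M, g i := by
  induction q generalizing s with
  | zero => simp
  | succ q ih =>
    rw [show (q + 1) * M = q * M + M by ring, Finset.sum_range_add, ih]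
    have := per_sum M hM g hg u hu (s + u * (q * M : ℕ))
    have h2 : ∑ x ∈ Finset.range M, g (u * ((q * M + x : ℕ) : ℤ) + s) = ∑ i ∈ Finset.range M, g i := by
      rw [← this]
      apply Finset.sum_congr rfl
      intro i _
      congr 1; push_cast; ring
    rw [h2]; push_cast; ring

open Classical in
/-- Pairs of values of affine forms that have not met. -/
theorem card_le' (t : ℕ) (z : ℕ × ℤ) (u s : ℤ) (hu : u % 2 = 1) (M : ℤ) (L : ℕ) (hL : 2 ^ t ≤ L) :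
    (((Finset.Ico M (M + L)).filter (fun x => ¬ Co t z (u * x + s))).card : ℝ) ≤ 2 * surv t z * L := by
  have h0 : (((Finset.Ico M (M + L)).filter (fun x => ¬ Co t z (u * x + s))).card : ℝ) =
      ∑ i ∈ Finset.range L, nc t z (u * i + (u * M + s)) := by
    have := sum_Ico_int (fun x => nc t z (u * x + s)) M L
    have h1 : ∀ i : ℕ, u * (M + i) + s = u * i + (u * M + s) := fun i => by ring
    simp only [h1] at this
    rw [← this, Finset.card_filter]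
    push_cast
    apply Finset.sum_congr rfl
    intro x _
    unfold nc
    split_ifs <;> simp_all
  rw [h0]
  have h1 : L ≤ (L / 2 ^ t + 1) * 2 ^ t := by
    rw [mul_comm]; exact (Nat.lt_mul_div_succ L (by positivity)).le
  have h2 : ∑ i ∈ Finset.range L, nc t z (u * i + (u * M + s)) ≤
      ∑ i ∈ Finset.range ((L / 2 ^ t + 1) * 2 ^ t), nc t z (u * i + (u * M + s)) :=
    Finset.sum_le_sum_of_subset_of_nonneg (Finset.range_mono h1) (fun _ _ _ => nc_nonneg _ _ _)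
  rw [sum_block' (2 ^ t) (by positivity) _ (nc_per t z) u (cop2 t u hu), sum_nc] at h2
  have h3 : ((L / 2 ^ t + 1 : ℕ) : ℝ) * 2 ^ t ≤ 2 * L := by
    have : (L / 2 ^ t + 1) * 2 ^ t ≤ 2 * L := by
      have := Nat.div_mul_le_self L (2 ^ t)
      nlinarith
    exact_mod_cast this
  have h4 := surv_nonneg t z
  nlinarith

lemma ncard_eq (P : ℤ → Prop) [DecidablePred P] (M : ℤ) (L : ℕ) :
    Set.ncard {n : ℤ | M ≤ n ∧ n < M + L ∧ P n} = ((Finset.Ico M (M + L)).filter P).card := by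
  rw [← Set.ncard_coe_finset]
  congr 1
  ext n
  simp only [Finset.coe_filter, Finset.mem_Ico, Set.mem_ofPred_eq, and_assoc]

/-- Upper bound. -/
theorem upper : ∃ C : ℝ, 0 < C ∧ ∀ (a : ℕ) (b : ℤ) (t : ℕ), 1 ≤ t → ∀ (M : ℤ) (L : ℕ), 2 ^ t ≤ L →
    (Set.ncard {n : ℤ | M ≤ n ∧ n < M + L ∧ T^[t] n ≠ T^[t] (3 ^ a * n + b)} : ℝ) ≤
      C * (1 + a + √(Real.log (2 + |(b:ℝ)|))) / √t * L := by
  classical
  obtain ⟨C, hC, h⟩ := surv_le
  refine ⟨2 * C, by positivity, fun a b t ht M L hL => ?_⟩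
  rw [ncard_eq (fun n => T^[t] n ≠ T^[t] (3 ^ a * n + b))]
  have h1 : ((Finset.Ico M (M + L)).filter (fun n => T^[t] n ≠ T^[t] (3 ^ a * n + b))).card ≤
      ((Finset.Ico M (M + L)).filter (fun x => ¬ Co t (a, b) x)).card := by
    apply Finset.card_le_card
    intro x hx
    rw [Finset.mem_filter] at hx ⊢
    exact ⟨hx.1, fun hc => hx.2 (Co_meet t (a, b) x hc)⟩
  have h2 := card_le t (a, b) M L hL
  have h3 := h t ht a b
  have h4 : (((Finset.Ico M (M + L)).filter (fun n => T^[t] n ≠ T^[t] (3 ^ a * n + b))).card : ℝ) ≤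
      (((Finset.Ico M (M + L)).filter (fun x => ¬ Co t (a, b) x)).card : ℝ) := by exact_mod_cast h1
  have h5 : (0:ℝ) ≤ L := Nat.cast_nonneg _
  have h6 : 2 * surv t (a, b) * L ≤ 2 * (C * (1 + a + √(Real.log (2 + |(b:ℝ)|))) / √t) * L := by
    apply mul_le_mul_of_nonneg_right _ h5; linarith
  have h7 : 2 * (C * (1 + a + √(Real.log (2 + |(b:ℝ)|))) / √t) * L =
      2 * C * (1 + a + √(Real.log (2 + |(b:ℝ)|))) / √t * L := by ring
  linarith

/-- Lower bound. -/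
theorem lower (a : ℕ) (b : ℤ) (hab : (a, b) ≠ (0, 0)) (t : ℕ) (ht : 1 ≤ t) (M : ℤ) (L : ℕ) (hL : 64 * t * 2 ^ t ≤ L) :
    1 / 64 * min 1 ((1 + a) / √t) * L ≤
      (Set.ncard {n : ℤ | M ≤ n ∧ n < M + L ∧ T^[t] n ≠ T^[t] (3 ^ a * n + b)} : ℝ) := by
  classical
  rw [ncard_eq (fun n => T^[t] n ≠ T^[t] (3 ^ a * n + b))]
  have hL' : 2 ^ t ≤ L := by
    have : 1 * 2 ^ t ≤ 64 * t * 2 ^ t := Nat.mul_le_mul_right _ (by omega)
    omega
  have h1 : ((Finset.Ico M (M + L)).filter (fun x => ¬ Co t (a, b) x)).card ≤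
      ((Finset.Ico M (M + L)).filter (fun n => T^[t] n ≠ T^[t] (3 ^ a * n + b))).card + 2 ^ t := by
    have h2 := card_accident t (a, b) M L
    have h3 : (Finset.Ico M (M + L)).filter (fun x => ¬ Co t (a, b) x) ⊆
        (Finset.Ico M (M + L)).filter (fun n => T^[t] n ≠ T^[t] (3 ^ a * n + b)) ∪
        (Finset.Ico M (M + L)).filter (fun x => ¬ Co t (a, b) x ∧ T^[t] x = T^[t] (3 ^ (a, b).1 * x + (a, b).2)) := by
      intro x hx
      rw [Finset.mem_filter] at hx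
      rw [Finset.mem_union, Finset.mem_filter, Finset.mem_filter]
      by_cases h : T^[t] x = T^[t] (3 ^ a * x + b)
      · right; exact ⟨hx.1, hx.2, h⟩
      · left; exact ⟨hx.1, h⟩
    exact (Finset.card_le_card h3).trans ((Finset.card_union_le _ _).trans (Nat.add_le_add_left h2 _))
  have h2 := card_ge t (a, b) M L hL'
  have h3 := surv_ge t ht (a, b) hab
  simp only at h3
  set m : ℝ := min 1 ((1 + a) / √t) with hm
  have h4 : (((Finset.Ico M (M + L)).filter (fun x => ¬ Co t (a, b) x)).card : ℝ) ≤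
      (((Finset.Ico M (M + L)).filter (fun n => T^[t] n ≠ T^[t] (3 ^ a * n + b))).card : ℝ) + 2 ^ t := by
    exact_mod_cast h1
  have ht0 : (1:ℝ) ≤ t := by exact_mod_cast ht
  have hst : (0:ℝ) < √t := Real.sqrt_pos.mpr (by linarith)
  have hst2 : √(t:ℝ) ≤ t := by
    apply Real.sqrt_le_iff.mpr
    exact ⟨by linarith, by nlinarith⟩
  have hmt : 1 / (t:ℝ) ≤ m := by
    rw [hm]
    apply le_min
    · rw [div_le_one (by linarith)]; exact ht0
    · apply div_le_div₀ (by positivity) _ hst hst2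
      have : (0:ℝ) ≤ a := Nat.cast_nonneg _
      linarith
  have h5 : (64 * t * 2 ^ t : ℝ) ≤ L := by exact_mod_cast hL
  have h6 : (2:ℝ) ^ t ≤ 1 / 64 * m * L := by
    have h7 : (2:ℝ) ^ t = 1 / 64 * (1 / t) * (64 * t * 2 ^ t) := by field_simp
    rw [h7]
    apply mul_le_mul _ h5 (by positivity) (by positivity)
    linarith
  have h8 : (0:ℝ) ≤ L := Nat.cast_nonneg _
  have h9 : 1 / 16 * m / 2 * L ≤ surv t (a, b) / 2 * L := by
    apply mul_le_mul_of_nonneg_right _ h8; linarith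
  nlinarith

/-- The first steps of an affine form. -/
lemma T_iter_affine (i : ℕ) (r : ℤ) : ∃ o ≤ i, ∀ m : ℤ, T^[i] (2 ^ i * m + r) = 3 ^ o * m + T^[i] r := by
  induction i generalizing r with
  | zero => exact ⟨0, le_rfl, fun m => by simp⟩
  | succ i ih =>
    obtain ⟨o, ho, h⟩ := ih (T r)
    rcases Int.even_or_odd' r with ⟨k, rfl | rfl⟩
    · refine ⟨o, by omega, fun m => ?_⟩
      rw [Function.iterate_succ_apply, Function.iterate_succ_apply]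
      have : 2 ^ (i + 1) * m + 2 * k = 2 * (2 ^ i * m + k) := by ring
      rw [this, T_even]
      rw [T_even] at h ⊢
      exact h m
    · refine ⟨o + 1, by omega, fun m => ?_⟩
      rw [Function.iterate_succ_apply, Function.iterate_succ_apply]
      have : 2 ^ (i + 1) * m + (2 * k + 1) = 2 * (2 ^ i * m + k) + 1 := by ring
      rw [this, T_odd]
      rw [T_odd] at h ⊢
      have h2 := h (3 * m)
      have e1 : 3 * (2 ^ i * m + k) + 2 = 2 ^ i * (3 * m) + (3 * k + 2) := by ring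
      rw [e1, h2, pow_succ]; ring

lemma T_abs (x : ℤ) : |T x| + 1 ≤ 2 * (|x| + 1) := by
  rcases Int.even_or_odd' x with ⟨k, rfl | rfl⟩
  · rw [T_even]
    rcases abs_cases k with ⟨h1, h2⟩ | ⟨h1, h2⟩ <;> rcases abs_cases (2 * k) with ⟨h3, h4⟩ | ⟨h3, h4⟩ <;> omega
  · rw [T_odd]
    rcases abs_cases (3 * k + 2) with ⟨h1, h2⟩ | ⟨h1, h2⟩ <;> rcases abs_cases (2 * k + 1) with ⟨h3, h4⟩ | ⟨h3, h4⟩ <;>
      omega

lemma T_iter_abs (i : ℕ) (x : ℤ) : |T^[i] x| + 1 ≤ 2 ^ i * (|x| + 1) := by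
  induction i generalizing x with
  | zero => simp
  | succ i ih =>
    rw [Function.iterate_succ_apply]
    have h1 := ih (T x)
    have h2 := T_abs x
    have h3 : (0:ℤ) < 2 ^ i := by positivity
    calc |T^[i] (T x)| + 1 ≤ 2 ^ i * (|T x| + 1) := h1
      _ ≤ 2 ^ i * (2 * (|x| + 1)) := mul_le_mul_of_nonneg_left h2 h3.le
      _ = _ := by rw [pow_succ]; ring

lemma inv_iter {S : Set ℤ} (hS : ∀ x, T x ∈ S ↔ x ∈ S) (i : ℕ) (x : ℤ) : T^[i] x ∈ S ↔ x ∈ S := by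
  induction i generalizing x with
  | zero => simp
  | succ i ih => rw [Function.iterate_succ_apply, ih, hS]

/-- Two forms with slopes powers of three. -/
lemma inv_pair {C : ℝ} (hC : 0 < C) (h : ∀ (t : ℕ), 1 ≤ t → ∀ (a : ℕ) (b : ℤ),
    surv t (a, b) ≤ C * (1 + a + √(Real.log (2 + |(b:ℝ)|))) / √t) (S : Set ℤ) (hS : ∀ x, T x ∈ S ↔ x ∈ S)
    (a c : ℕ) (hca : c ≤ a) (b d : ℤ) (t : ℕ) (ht : 1 ≤ t) (M : ℤ) (L : ℕ) (hL : 2 ^ t ≤ L) :
    (Set.ncard {n : ℤ | M ≤ n ∧ n < M + L ∧ ¬ (3 ^ a * n + b ∈ S ↔ 3 ^ c * n + d ∈ S)} : ℝ) ≤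
      2 * C * (1 + a + √(Real.log (2 + |((b - 3 ^ (a - c) * d : ℤ):ℝ)|))) / √t * L := by
  classical
  rw [ncard_eq (fun n => ¬ (3 ^ a * n + b ∈ S ↔ 3 ^ c * n + d ∈ S))]
  set z : ℕ × ℤ := (a - c, b - 3 ^ (a - c) * d) with hz
  have h1 : ((Finset.Ico M (M + L)).filter (fun n => ¬ (3 ^ a * n + b ∈ S ↔ 3 ^ c * n + d ∈ S))).card ≤
      ((Finset.Ico M (M + L)).filter (fun x => ¬ Co t z (3 ^ c * x + d))).card := by
    apply Finset.card_le_card
    intro x hx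
    rw [Finset.mem_filter] at hx ⊢
    refine ⟨hx.1, fun hc => hx.2 ?_⟩
    have h2 := Co_meet t z _ hc
    have h3 : (3:ℤ) ^ z.1 * (3 ^ c * x + d) + z.2 = 3 ^ a * x + b := by
      simp only [hz]
      have : (3:ℤ) ^ a = 3 ^ (a - c) * 3 ^ c := by rw [← pow_add]; congr 1; omega
      rw [this]; ring
    rw [h3] at h2
    rw [← inv_iter hS t (3 ^ a * x + b), ← inv_iter hS t (3 ^ c * x + d), h2]
  have hodd : (3:ℤ) ^ c % 2 = 1 := by
    have := e_spec c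
    omega
  have h2 := card_le' t z (3 ^ c) d hodd M L hL
  have h3 := h t ht (a - c) (b - 3 ^ (a - c) * d)
  rw [← hz] at h3
  have h4 : (((Finset.Ico M (M + L)).filter (fun n => ¬ (3 ^ a * n + b ∈ S ↔ 3 ^ c * n + d ∈ S))).card : ℝ) ≤
      (((Finset.Ico M (M + L)).filter (fun x => ¬ Co t z (3 ^ c * x + d))).card : ℝ) := by exact_mod_cast h1
  have h5 : (0:ℝ) ≤ L := Nat.cast_nonneg _
  have h55 : ((a - c : ℕ) : ℝ) ≤ a := by exact_mod_cast Nat.sub_le a c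
  have hst : (0:ℝ) < √(t:ℝ) := Real.sqrt_pos.mpr (by exact_mod_cast ht)
  have h66 : surv t z ≤ C * (1 + a + √(Real.log (2 + |((b - 3 ^ (a - c) * d : ℤ):ℝ)|))) / √t := by
    refine h3.trans ?_
    apply div_le_div_of_nonneg_right _ hst.le
    apply mul_le_mul_of_nonneg_left _ hC.le
    linarith
  have h6 : 2 * surv t z * L ≤ 2 * (C * (1 + a + √(Real.log (2 + |((b - 3 ^ (a - c) * d : ℤ):ℝ)|))) / √t) * L := by
    apply mul_le_mul_of_nonneg_right _ h5; linarith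
  have h7 : 2 * (C * (1 + a + √(Real.log (2 + |((b - 3 ^ (a - c) * d : ℤ):ℝ)|))) / √t) * L =
      2 * C * (1 + a + √(Real.log (2 + |((b - 3 ^ (a - c) * d : ℤ):ℝ)|))) / √t * L := by ring
  linarith

lemma log_bound (i a j c : ℕ) (b d b' d' : ℤ) (A k : ℕ) (hA : A ≤ i + a) (hk : k ≤ A)
    (hb : |b'| + 1 ≤ 2 ^ i * (|b| + 1)) (hd : |d'| + 1 ≤ 2 ^ j * (|d| + 1)) :
    1 + (A:ℝ) + √(Real.log (2 + |((b' - 3 ^ k * d' : ℤ):ℝ)|)) ≤
      3 * (1 + i + j + a + c + √(Real.log (2 + |(b:ℝ)| + |(d:ℝ)|))) := by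
  have hbd : (0:ℝ) < 2 + |(b:ℝ)| + |(d:ℝ)| := by positivity
  have hl0 : 0 ≤ Real.log (2 + |(b:ℝ)| + |(d:ℝ)|) :=
    Real.log_nonneg (by have := abs_nonneg (b:ℝ); have := abs_nonneg (d:ℝ); linarith)
  have h1 : (2 + |b' - 3 ^ k * d'| : ℤ) ≤ 2 * (3 ^ (2 * i + j + a) * (2 + |b| + |d|)) := by
    have e1 : |b' - 3 ^ k * d'| ≤ |b'| + 3 ^ k * |d'| := by
      have := abs_sub b' (3 ^ k * d')
      rw [abs_mul, abs_of_nonneg (by positivity : (0:ℤ) ≤ 3 ^ k)] at this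
      exact this
    have e2 : (2:ℤ) ^ i ≤ 3 ^ (2 * i + j + a) := by
      calc (2:ℤ) ^ i ≤ 3 ^ i := pow_le_pow_left₀ (by norm_num) (by norm_num) i
        _ ≤ _ := pow_le_pow_right₀ (by norm_num) (by omega)
    have e3 : (3:ℤ) ^ k * 2 ^ j ≤ 3 ^ (2 * i + j + a) := by
      calc (3:ℤ) ^ k * 2 ^ j ≤ 3 ^ k * 3 ^ j := by
            apply mul_le_mul_of_nonneg_left _ (by positivity)
            exact pow_le_pow_left₀ (by norm_num) (by norm_num) j
        _ = 3 ^ (k + j) := by rw [pow_add]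
        _ ≤ _ := pow_le_pow_right₀ (by norm_num) (by omega)
    have e4 : |b'| ≤ 3 ^ (2 * i + j + a) * (|b| + 1) := by
      have := mul_le_mul_of_nonneg_right e2 (show 0 ≤ |b| + 1 by positivity)
      omega
    have e5 : 3 ^ k * |d'| ≤ 3 ^ (2 * i + j + a) * (|d| + 1) := by
      calc 3 ^ k * |d'| ≤ 3 ^ k * (2 ^ j * (|d| + 1)) := by
            apply mul_le_mul_of_nonneg_left _ (by positivity); omega
        _ = (3 ^ k * 2 ^ j) * (|d| + 1) := by ring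
        _ ≤ _ := mul_le_mul_of_nonneg_right e3 (by positivity)
    have e6 : (1:ℤ) ≤ 3 ^ (2 * i + j + a) := one_le_pow₀ (by norm_num)
    have e7 := abs_nonneg b
    have e8 := abs_nonneg d
    nlinarith
  have h2 : (2 + |((b' - 3 ^ k * d' : ℤ):ℝ)|) ≤ 2 * (3 ^ (2 * i + j + a) * (2 + |(b:ℝ)| + |(d:ℝ)|)) := by
    exact_mod_cast h1
  have h3 : Real.log (2 + |((b' - 3 ^ k * d' : ℤ):ℝ)|) ≤
      Real.log 2 + ((2 * i + j + a : ℕ) * Real.log 3 + Real.log (2 + |(b:ℝ)| + |(d:ℝ)|)) := by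
    have h4 := Real.log_le_log (by positivity) h2
    rw [Real.log_mul (by norm_num) (by positivity), Real.log_mul (by positivity) hbd.ne', Real.log_pow] at h4
    exact h4
  have hl2 : Real.log 2 ≤ 1 := by have := Real.log_two_lt_d9; linarith
  have hl3 : Real.log 3 ≤ 2 := by
    have h5 : Real.log 3 ≤ Real.log 4 := Real.log_le_log (by norm_num) (by norm_num)
    have h6 : Real.log 4 = 2 * Real.log 2 := by
      rw [show (4:ℝ) = 2 ^ 2 by norm_num, Real.log_pow]; norm_num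
    linarith
  have hn : (0:ℝ) ≤ ((2 * i + j + a : ℕ) : ℝ) := Nat.cast_nonneg _
  have h4 : Real.log (2 + |((b' - 3 ^ k * d' : ℤ):ℝ)|) ≤
      (1 + 2 * ((i:ℝ) + j + a)) ^ 2 + Real.log (2 + |(b:ℝ)| + |(d:ℝ)|) := by
    have h5 : ((2 * i + j + a : ℕ) : ℝ) * Real.log 3 ≤ ((2 * i + j + a : ℕ) : ℝ) * 2 :=
      mul_le_mul_of_nonneg_left hl3 hn
    have hcast : ((2 * i + j + a : ℕ) : ℝ) = 2 * i + j + a := by push_cast; ring
    rw [hcast] at h3 h5
    have hi : (0:ℝ) ≤ i := Nat.cast_nonneg _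
    have hj : (0:ℝ) ≤ j := Nat.cast_nonneg _
    have ha : (0:ℝ) ≤ a := Nat.cast_nonneg _
    nlinarith
  have h5 : √(Real.log (2 + |((b' - 3 ^ k * d' : ℤ):ℝ)|)) ≤
      (1 + 2 * ((i:ℝ) + j + a)) + √(Real.log (2 + |(b:ℝ)| + |(d:ℝ)|)) := by
    refine (Real.sqrt_le_sqrt h4).trans ?_
    have hx : (0:ℝ) ≤ 1 + 2 * ((i:ℝ) + j + a) := by positivity
    have hs0 := Real.sqrt_nonneg (Real.log (2 + |(b:ℝ)| + |(d:ℝ)|))
    have hs1 := Real.mul_self_sqrt hl0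
    apply Real.sqrt_le_iff.mpr
    refine ⟨by positivity, ?_⟩
    have hxs := mul_nonneg hx hs0
    nlinarith
  have hA' : (A:ℝ) ≤ i + a := by exact_mod_cast hA
  have hj : (0:ℝ) ≤ j := Nat.cast_nonneg _
  have hc : (0:ℝ) ≤ c := Nat.cast_nonneg _
  have hi : (0:ℝ) ≤ i := Nat.cast_nonneg _
  have ha : (0:ℝ) ≤ a := Nat.cast_nonneg _
  have hs := Real.sqrt_nonneg (Real.log (2 + |(b:ℝ)| + |(d:ℝ)|))
  linarith

/-- Invariant sets are almost invariant under affine maps. -/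
theorem invariant : ∃ C : ℝ, 0 < C ∧ ∀ S : Set ℤ, (∀ x, T x ∈ S ↔ x ∈ S) → ∀ (i j a c : ℕ) (b d : ℤ)
    (M : ℤ) (L : ℕ), 2 ≤ L →
    (Set.ncard {n : ℤ | M ≤ n ∧ n < M + L ∧ ¬ (2 ^ i * 3 ^ a * n + b ∈ S ↔ 2 ^ j * 3 ^ c * n + d ∈ S)} : ℝ) ≤
      C * (1 + i + j + a + c + √(Real.log (2 + |(b:ℝ)| + |(d:ℝ)|))) / √(Real.log L) * L := by
  obtain ⟨C, hC, h⟩ := surv_le
  refine ⟨12 * C, by positivity, fun S hS i j a c b d M L hL => ?_⟩
  set t := Nat.log 2 L with ht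
  have ht1 : 1 ≤ t := Nat.log_pos (by norm_num) hL
  have htL : 2 ^ t ≤ L := Nat.pow_log_le_self 2 (by omega)
  have hLt : L < 2 ^ (t + 1) := Nat.lt_pow_succ_log_self (by norm_num) L
  obtain ⟨o, ho, ho'⟩ := T_iter_affine i b
  obtain ⟨p, hp, hp'⟩ := T_iter_affine j d
  have hb := T_iter_abs i b
  have hd := T_iter_abs j d
  have e1 : ∀ n : ℤ, (2 ^ i * 3 ^ a * n + b ∈ S ↔ 3 ^ (o + a) * n + T^[i] b ∈ S) := by
    intro n
    rw [← inv_iter hS i (2 ^ i * 3 ^ a * n + b), mul_assoc, ho', pow_add]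
    have : (3:ℤ) ^ o * 3 ^ a * n = 3 ^ o * (3 ^ a * n) := by ring
    rw [this]
  have e2 : ∀ n : ℤ, (2 ^ j * 3 ^ c * n + d ∈ S ↔ 3 ^ (p + c) * n + T^[j] d ∈ S) := by
    intro n
    rw [← inv_iter hS j (2 ^ j * 3 ^ c * n + d), mul_assoc, hp', pow_add]
    have : (3:ℤ) ^ p * 3 ^ c * n = 3 ^ p * (3 ^ c * n) := by ring
    rw [this]
  have hset : {n : ℤ | M ≤ n ∧ n < M + L ∧ ¬ (2 ^ i * 3 ^ a * n + b ∈ S ↔ 2 ^ j * 3 ^ c * n + d ∈ S)} =
      {n : ℤ | M ≤ n ∧ n < M + L ∧ ¬ (3 ^ (o + a) * n + T^[i] b ∈ S ↔ 3 ^ (p + c) * n + T^[j] d ∈ S)} := by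
    ext n; simp only [Set.mem_ofPred_eq, e1, e2]
  have hset2 : {n : ℤ | M ≤ n ∧ n < M + L ∧ ¬ (3 ^ (o + a) * n + T^[i] b ∈ S ↔ 3 ^ (p + c) * n + T^[j] d ∈ S)} =
      {n : ℤ | M ≤ n ∧ n < M + L ∧ ¬ (3 ^ (p + c) * n + T^[j] d ∈ S ↔ 3 ^ (o + a) * n + T^[i] b ∈ S)} := by
    ext n
    simp only [Set.mem_ofPred_eq]
    rw [iff_comm (a := 3 ^ (o + a) * n + T^[i] b ∈ S)]
  rw [hset]
  have hst : (0:ℝ) < √(t:ℝ) := Real.sqrt_pos.mpr (by exact_mod_cast ht1)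
  have hmain : (Set.ncard {n : ℤ | M ≤ n ∧ n < M + L ∧ ¬ (3 ^ (o + a) * n + T^[i] b ∈ S ↔ 3 ^ (p + c) * n + T^[j] d ∈ S)} : ℝ)
      ≤ 6 * C * (1 + i + j + a + c + √(Real.log (2 + |(b:ℝ)| + |(d:ℝ)|))) / √t * L := by
    have h5 : (0:ℝ) ≤ L := Nat.cast_nonneg _
    rcases le_total (p + c) (o + a) with hle | hle
    · have h1 := inv_pair hC h S hS (o + a) (p + c) hle (T^[i] b) (T^[j] d) t ht1 M L htL
      refine h1.trans ?_
      apply mul_le_mul_of_nonneg_right _ h5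
      apply div_le_div_of_nonneg_right _ hst.le
      have h2 := log_bound i a j c b d (T^[i] b) (T^[j] d) (o + a) (o + a - (p + c)) (by omega) (by omega) hb hd
      have h3 := mul_le_mul_of_nonneg_left h2 (show 0 ≤ 2 * C by positivity)
      linarith
    · rw [hset2]
      have h1 := inv_pair hC h S hS (p + c) (o + a) hle (T^[j] d) (T^[i] b) t ht1 M L htL
      refine h1.trans ?_
      apply mul_le_mul_of_nonneg_right _ h5
      apply div_le_div_of_nonneg_right _ hst.le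
      have h2 := log_bound j c i a d b (T^[j] d) (T^[i] b) (p + c) (p + c - (o + a)) (by omega) (by omega) hd hb
      have h3 := mul_le_mul_of_nonneg_left h2 (show 0 ≤ 2 * C by positivity)
      have e3 : 2 + |(d:ℝ)| + |(b:ℝ)| = 2 + |(b:ℝ)| + |(d:ℝ)| := by ring
      rw [e3] at h3
      linarith
  refine hmain.trans ?_
  have h5 : (0:ℝ) ≤ L := Nat.cast_nonneg _
  apply mul_le_mul_of_nonneg_right _ h5
  have hL1 : (1:ℝ) < L := by exact_mod_cast (by omega : 1 < L)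
  have hlog : 0 < Real.log L := Real.log_pos hL1
  have hsl : (0:ℝ) < √(Real.log L) := Real.sqrt_pos.mpr hlog
  have h6 : √(Real.log L) ≤ 2 * √t := by
    have e1 : √(4 * (t:ℝ)) = 2 * √t := by
      rw [Real.sqrt_mul (by norm_num), show (4:ℝ) = 2 ^ 2 by norm_num, Real.sqrt_sq (by norm_num)]
    rw [← e1]
    apply Real.sqrt_le_sqrt
    have h7 : (L:ℝ) ≤ 2 ^ (t + 1) := by exact_mod_cast hLt.le
    have h8 := Real.log_le_log (by linarith) h7
    rw [Real.log_pow] at h8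
    have hl2 : Real.log 2 ≤ 1 := by have := Real.log_two_lt_d9; linarith
    have ht0 : (1:ℝ) ≤ t := by exact_mod_cast ht1
    push_cast at h8
    nlinarith
  rw [div_le_div_iff₀ hst hsl]
  have hX : 0 ≤ 6 * C * (1 + i + j + a + c + √(Real.log (2 + |(b:ℝ)| + |(d:ℝ)|))) := by positivity
  nlinarith

end Pool.Agent.Q158.Pair
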