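import Pool.Agent.Q158.Pair.Chain

/-! # Every pair can meet; expected numbers of visits -/

namespace Pool.Agent.Q158.Pair

lemma surv_lt_of_step {m : ℕ} {z : ℕ × ℤ} (c : Bool) (h : surv m (step c z) < 1) : surv (m + 1) z < 1 := by
  have h1 := surv_le_one m (step false z)
  have h2 := surv_le_one m (step true z)
  rw [surv, av]
  cases c <;> linarith

lemma path_one (b : ℕ) : 1 ≤ b → (∀ β : ℤ, β.natAbs ≤ (b - 1) / 2 → ∃ m, surv m (0, β) < 1) →
    ∃ m, surv m (1, (b : ℤ)) < 1 := by
  induction b using Nat.strong_induction_on with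
  | _ b ih =>
    intro hb h
    rcases Nat.even_or_odd' b with ⟨j, hj | hj⟩
    · obtain ⟨m, hm⟩ := ih j (by omega) (by omega) (fun β hβ => h β (by omega))
      refine ⟨m + 1, surv_lt_of_step false ?_⟩
      have : (b : ℤ) = 2 * (j : ℤ) := by rw [hj]; push_cast; ring
      rw [this, (step_even 1 j).1]; exact hm
    · obtain ⟨m, hm⟩ := h (j : ℤ) (by omega)
      refine ⟨m + 1, surv_lt_of_step true ?_⟩
      have : (b : ℤ) = 2 * (j : ℤ) + 1 := by rw [hj]; push_cast; ring
      rw [this]
      have h2 := step_odd_true_succ 0 (j : ℤ)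
      simp only [zero_add, e, sub_zero] at h2
      rw [h2]; exact hm

lemma path_zero (n : ℕ) : ∀ β : ℤ, β.natAbs = n → ∃ m, surv m (0, β) < 1 := by
  induction n using Nat.strong_induction_on with
  | _ n ih =>
    intro β hβ
    rcases Int.even_or_odd' β with ⟨k, hk | hk⟩
    · by_cases h0 : k = 0
      · subst h0
        refine ⟨0, ?_⟩
        have : β = 0 := by omega
        rw [this, surv_zero_state]; norm_num
      · obtain ⟨m, hm⟩ := ih k.natAbs (by omega) k rfl
        exact ⟨m + 1, surv_lt_of_step false (by rw [hk, (step_even 0 k).1]; exact hm)⟩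
    · by_cases h0 : 0 ≤ k
      · obtain ⟨j, rfl⟩ := Int.eq_ofNat_of_zero_le h0
        obtain ⟨m, hm⟩ := path_one (3 * j + 2) (by omega) (fun β' hβ' => ih β'.natAbs (by omega) β' rfl)
        refine ⟨m + 1, surv_lt_of_step false ?_⟩
        rw [hk, step_odd_false]
        have : (3 * (j : ℤ) + 2) = ((3 * j + 2 : ℕ) : ℤ) := by push_cast; ring
        simp only [zero_add]
        rw [this]; exact hm
      · push Not at h0
        obtain ⟨j, hj⟩ := Int.eq_ofNat_of_zero_le (show 0 ≤ -k - 1 by omega)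
        obtain ⟨m, hm⟩ := path_one (3 * j + 2) (by omega) (fun β' hβ' => ih β'.natAbs (by omega) β' rfl)
        refine ⟨m + 1, surv_lt_of_step true ?_⟩
        rw [hk, step_odd_true_zero]
        have : (-3 * k - 1) = ((3 * j + 2 : ℕ) : ℤ) := by push_cast; omega
        rw [this]; exact hm

/-- Uniform positive probability to meet from the states `(0, β)` with `|β| ≤ R`. -/
lemma path_uniform (R : ℕ) : ∃ m : ℕ, 1 ≤ m ∧ ∃ p : ℝ, 0 < p ∧ p ≤ 1 ∧
    ∀ β : ℤ, |β| ≤ R → surv m (0, β) ≤ 1 - p := by
  choose f hf using fun β : ℤ => path_zero β.natAbs β rfl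
  set S : Finset ℤ := Finset.Icc (-(R:ℤ)) R with hS
  have hne : S.Nonempty := ⟨0, by rw [hS, Finset.mem_Icc]; omega⟩
  set m := S.sup f + 1 with hm
  obtain ⟨β0, hβ0, hmax⟩ := S.exists_max_image (fun β => surv m (0, β)) hne
  have hlt : surv m (0, β0) < 1 := by
    refine lt_of_le_of_lt (surv_anti ?_ _) (hf β0)
    have := Finset.le_sup (f := f) hβ0
    omega
  refine ⟨m, by omega, 1 - surv m (0, β0), by linarith, by linarith [surv_nonneg m (0, β0)], fun β hβ => ?_⟩
  have := hmax β (by rw [hS, Finset.mem_Icc]; exact abs_le.mp hβ)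
  linarith

/-- Expected value of the sum of `g` over the first `t` states. -/
noncomputable def acc (g : ℕ × ℤ → ℝ) : ℕ → ℕ × ℤ → ℝ
  | 0 => fun _ => 0
  | t + 1 => fun z => g z + av (acc g t) z

lemma acc_zero_state {g : ℕ × ℤ → ℝ} (hg : g (0, 0) = 0) (t : ℕ) : acc g t (0, 0) = 0 := by
  induction t with
  | zero => rfl
  | succ n ih => simp only [acc]; rw [av_zero, ih, hg]; norm_num

lemma acc_nonneg {g : ℕ × ℤ → ℝ} (hg : ∀ z, 0 ≤ g z) (t : ℕ) (z : ℕ × ℤ) : 0 ≤ acc g t z := by
  induction t generalizing z with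
  | zero => exact le_rfl
  | succ n ih => simp only [acc, av]; linarith [hg z, ih (step false z), ih (step true z)]

lemma acc_le {g : ℕ × ℤ → ℝ} (hg : ∀ z, g z ≤ 1) (t : ℕ) (z : ℕ × ℤ) : acc g t z ≤ t := by
  induction t generalizing z with
  | zero => simp [acc]
  | succ n ih => simp only [acc, av]; push_cast; linarith [hg z, ih (step false z), ih (step true z)]

lemma acc_add_le {g : ℕ × ℤ → ℝ} (hg : ∀ z, g z ≤ 1) (hg0 : g (0, 0) = 0) (t : ℕ) (b : ℝ)
    (hb : ∀ z, acc g t z ≤ b) (m : ℕ) : ∀ z, acc g (m + t) z ≤ m + b * surv m z := by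
  induction m with
  | zero =>
    intro z
    by_cases h : z = (0, 0)
    · rw [h, surv_zero_state, zero_add, acc_zero_state hg0]; simp
    · have : surv 0 z = 1 := by simp [surv, h]
      rw [this, zero_add]; simpa using hb z
  | succ n ih =>
    intro z
    have : n + 1 + t = (n + t) + 1 := by ring
    rw [this]
    simp only [acc]
    have h1 : av (acc g (n + t)) z ≤ av (fun z => (n:ℝ) + b * surv n z) z := av_mono ih z
    have h2 : av (fun z => (n:ℝ) + b * surv n z) z = n + b * surv (n + 1) z := by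
      simp only [surv, av]; ring
    rw [h2] at h1
    push_cast
    linarith [hg z]

/-- The zero crossings. -/
noncomputable def zo (z : ℕ × ℤ) : ℝ := if z.1 = 0 ∧ z.2 % 2 = 1 then 1 else 0

/-- The zero crossings with a small difference. -/
noncomputable def good (R : ℕ) (z : ℕ × ℤ) : ℝ := if z.1 = 0 ∧ z.2 % 2 = 1 ∧ |z.2| ≤ R then 1 else 0

lemma good_le (R : ℕ) (z : ℕ × ℤ) : good R z ≤ 1 := by unfold good; split_ifs <;> norm_num
lemma good_nonneg (R : ℕ) (z : ℕ × ℤ) : 0 ≤ good R z := by unfold good; split_ifs <;> norm_num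
lemma zo_le (z : ℕ × ℤ) : zo z ≤ 1 := by unfold zo; split_ifs <;> norm_num
lemma zo_nonneg (z : ℕ × ℤ) : 0 ≤ zo z := by unfold zo; split_ifs <;> norm_num

/-- The expected number of good visits is bounded. -/
theorem acc_good (R : ℕ) : ∃ B : ℝ, 0 ≤ B ∧ ∀ t z, acc (good R) t z ≤ B := by
  obtain ⟨m, hm1, p, hp0, hp1, hp⟩ := path_uniform R
  have hmp : (m:ℝ) ≤ m / p := by
    rw [le_div_iff₀ hp0]; nlinarith [(Nat.cast_nonneg m : (0:ℝ) ≤ m)]
  refine ⟨m / p, by positivity, fun t => ?_⟩
  induction t using Nat.strong_induction_on with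
  | _ t ih =>
    have hB0 : (0:ℝ) ≤ m / p := by positivity
    intro z
    by_cases hz : z.1 = 0 ∧ z.2 % 2 = 1 ∧ |z.2| ≤ R
    · rcases Nat.lt_or_ge t m with h | h
      · have h1 := acc_le (good_le R) t z
        have h2 : (t:ℝ) ≤ m := by exact_mod_cast h.le
        linarith
      · obtain ⟨t', rfl⟩ := Nat.exists_eq_add_of_le h
        have h1 := acc_add_le (good_le R) (by simp [good]) t' (m / p) (fun z => ih t' (by omega) z) m z
        have h2 := hp z.2 hz.2.2
        have h3 : (0, z.2) = z := by rw [← hz.1]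
        rw [h3] at h2
        have h4 : (m / p) * surv m z ≤ (m / p) * (1 - p) := mul_le_mul_of_nonneg_left h2 hB0
        have h5 : (m / p) * (1 - p) = m / p - m := by field_simp
        linarith
    · rcases t with _ | t
      · simpa [acc] using hB0
      · have hg : good R z = 0 := by simp only [good, hz, if_false]
        simp only [acc, hg, zero_add, av]
        linarith [ih t (by omega) (step false z), ih t (by omega) (step true z)]

end Pool.Agent.Q158.Pair
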