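import Pool.Agent.Q158.Pair.Lyap

/-! # Upper bound for the probability that the pair has not met -/

namespace Pool.Agent.Q158.Pair

/-- The probability that neither `(0, 0)` nor the level `L` is reached within `t` steps. -/
noncomputable def stay (L : ℕ) : ℕ → ℕ × ℤ → ℝ
  | 0 => fun z => if z = (0, 0) ∨ L ≤ z.1 then 0 else 1
  | t + 1 => fun z => if z = (0, 0) ∨ L ≤ z.1 then 0 else av (stay L t) z

/-- The probability to reach the level `L` within `t` steps. -/
noncomputable def hit (L : ℕ) : ℕ → ℕ × ℤ → ℝ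
  | 0 => fun z => if L ≤ z.1 then 1 else 0
  | t + 1 => fun z => if L ≤ z.1 then 1 else av (hit L t) z

lemma stay_nonneg (L t : ℕ) (z : ℕ × ℤ) : 0 ≤ stay L t z := by
  induction t generalizing z with
  | zero => simp only [stay]; split_ifs <;> norm_num
  | succ n ih =>
    simp only [stay, av]; split_ifs
    · exact le_rfl
    · linarith [ih (step false z), ih (step true z)]

lemma stay_le_one (L t : ℕ) (z : ℕ × ℤ) : stay L t z ≤ 1 := by
  induction t generalizing z with
  | zero => simp only [stay]; split_ifs <;> norm_num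
  | succ n ih =>
    simp only [stay, av]; split_ifs
    · norm_num
    · linarith [ih (step false z), ih (step true z)]

lemma hit_nonneg (L t : ℕ) (z : ℕ × ℤ) : 0 ≤ hit L t z := by
  induction t generalizing z with
  | zero => simp only [hit]; split_ifs <;> norm_num
  | succ n ih =>
    simp only [hit, av]; split_ifs
    · norm_num
    · linarith [ih (step false z), ih (step true z)]

lemma stay_succ_le (L t : ℕ) (z : ℕ × ℤ) : stay L (t + 1) z ≤ stay L t z := by
  induction t generalizing z with
  | zero =>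
    by_cases h : z = (0, 0) ∨ L ≤ z.1
    · simp only [stay, h, if_true]; exact le_rfl
    · have : stay L 0 z = 1 := by simp only [stay, h, if_false]
      rw [this]; exact stay_le_one _ _ _
  | succ n ih =>
    by_cases h : z = (0, 0) ∨ L ≤ z.1
    · have : stay L (n + 1 + 1) z = 0 := by simp only [stay, h, if_true]
      rw [this]; exact stay_nonneg _ _ _
    · have h1 : stay L (n + 1 + 1) z = av (stay L (n + 1)) z := by
        conv_lhs => rw [stay]
        simp only [h, if_false]
      have h2 : stay L (n + 1) z = av (stay L n) z := by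
        conv_lhs => rw [stay]
        simp only [h, if_false]
      rw [h1, h2]
      exact av_mono ih z

lemma surv_le_stay_hit (L : ℕ) (t : ℕ) (z : ℕ × ℤ) : surv t z ≤ stay L t z + hit L t z := by
  induction t generalizing z with
  | zero =>
    by_cases h : z = (0, 0)
    · rw [h, surv_zero_state]
      linarith [stay_nonneg L 0 (0, 0), hit_nonneg L 0 (0, 0)]
    · have h1 : surv 0 z = 1 := by simp [surv, h]
      rw [h1]
      by_cases h2 : L ≤ z.1
      · have : hit L 0 z = 1 := by simp [hit, h2]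
        linarith [stay_nonneg L 0 z]
      · have : stay L 0 z = 1 := by simp only [stay, h, h2, or_self, if_false]
        linarith [hit_nonneg L 0 z]
  | succ n ih =>
    by_cases h : z = (0, 0)
    · rw [h, surv_zero_state]
      linarith [stay_nonneg L (n + 1) (0, 0), hit_nonneg L (n + 1) (0, 0)]
    · by_cases h2 : L ≤ z.1
      · have : hit L (n + 1) z = 1 := by simp [hit, h2]
        linarith [stay_nonneg L (n + 1) z, surv_le_one (n + 1) z]
      · have e1 : stay L (n + 1) z = av (stay L n) z := by simp only [stay, h, h2, or_self, if_false]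
        have e2 : hit L (n + 1) z = av (hit L n) z := by simp only [hit, h2, if_false]
        rw [e1, e2, surv, ← av_add]
        exact av_mono ih z

lemma av_fst (z : ℕ × ℤ) : av (fun z => (z.1 : ℝ)) z = z.1 + zo z := by
  rcases state_cases z with ⟨k, rfl⟩ | ⟨a, k, rfl⟩ | ⟨k, rfl⟩ | ⟨a, k, rfl⟩
  · rw [av_even]; simp [zo]
  · rw [av_even]; simp [zo]
  · rw [av_odd_zero]
    have : (2 * k + 1) % 2 = 1 := by omega
    simp [zo, this]
  · rw [av_odd_succ]; simp [zo]; ring

lemma hit_le (L t : ℕ) (z : ℕ × ℤ) : L * hit L t z ≤ z.1 + acc zo t z := by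
  induction t generalizing z with
  | zero =>
    simp only [hit, acc]
    split_ifs with h
    · have : (L:ℝ) ≤ z.1 := by exact_mod_cast h
      linarith
    · have : (0:ℝ) ≤ z.1 := Nat.cast_nonneg _
      linarith
  | succ n ih =>
    by_cases h2 : L ≤ z.1
    · have : hit L (n + 1) z = 1 := by simp [hit, h2]
      rw [this]
      have : (L:ℝ) ≤ z.1 := by exact_mod_cast h2
      linarith [acc_nonneg zo_nonneg (n + 1) z]
    · have e2 : hit L (n + 1) z = av (hit L n) z := by simp only [hit, h2, if_false]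
      rw [e2]
      have h3 := av_mono (f := fun z => L * hit L n z) (g := fun z => (z.1:ℝ) + acc zo n z) ih z
      rw [av_mul, av_add, av_fst] at h3
      simp only [acc]
      linarith

/-- A weight. -/
def fv (i : ℕ) : ℕ := 5 + padicValNat 2 (i + 1) + padicValNat 2 (i - 1)

/-- Tail sums of the weight. -/
def G (L j : ℕ) : ℕ := ∑ i ∈ Finset.Ioc j L, fv i

/-- Concave function with prescribed second differences. -/
def Ph (L a : ℕ) : ℕ := 2 * ∑ j ∈ Finset.range a, G L j

lemma Ph_succ (L a : ℕ) : Ph L (a + 1) = Ph L a + 2 * G L a := by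
  rw [Ph, Ph, Finset.sum_range_succ]; ring

lemma G_succ (L a : ℕ) (h : a + 1 ≤ L) : G L a = G L (a + 1) + fv (a + 1) := by
  rw [G, G, ← Finset.insert_Ioc_succ_left_eq_Ioc (show a < L by omega), Finset.sum_insert (by simp)]
  simp only [Nat.succ_eq_succ, Nat.succ_eq_add_one]
  ring

lemma G_anti (L a : ℕ) : G L a ≤ G L 0 := by
  apply Finset.sum_le_sum_of_subset
  apply Finset.Ioc_subset_Ioc_left
  omega

lemma sum_v1 (L : ℕ) : ∑ i ∈ Finset.Ioc 0 L, padicValNat 2 (i + 1) ≤ L + 1 := by
  have h : ∑ i ∈ Finset.Ioc 0 L, padicValNat 2 (i + 1) = ∑ i ∈ Finset.Icc 1 (L + 1), padicValNat 2 i := by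
    induction L with
    | zero => simp
    | succ n ih =>
      rw [Finset.sum_Ioc_succ_top (by omega), ih, Finset.sum_Icc_succ_top (show 1 ≤ n + 1 + 1 by omega)]
  rw [h]; exact sum_val (L + 1)

lemma sum_v2 (L : ℕ) : ∑ i ∈ Finset.Ioc 0 L, padicValNat 2 (i - 1) ≤ L := by
  have h : ∑ i ∈ Finset.Ioc 0 L, padicValNat 2 (i - 1) ≤ ∑ i ∈ Finset.Icc 1 (L - 1), padicValNat 2 i := by
    induction L with
    | zero => simp
    | succ n ih =>
      rw [Finset.sum_Ioc_succ_top (by omega)]
      rcases n with _ | n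
      · simp
      · have : n + 1 + 1 - 1 = n + 1 := rfl
        rw [this, Finset.sum_Icc_succ_top (by omega)]
        have : n + 1 - 1 = n := rfl
        rw [this] at ih
        linarith
  have := sum_val (L - 1)
  omega

lemma G_zero_le (L : ℕ) : G L 0 ≤ 7 * L + 1 := by
  have h : G L 0 = 5 * L + ∑ i ∈ Finset.Ioc 0 L, padicValNat 2 (i + 1) + ∑ i ∈ Finset.Ioc 0 L, padicValNat 2 (i - 1) := by
    simp only [G, fv, Finset.sum_add_distrib, Finset.sum_const, Nat.card_Ioc, smul_eq_mul, Nat.sub_zero]
    ring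
  have h1 := sum_v1 L
  have h2 := sum_v2 L
  omega

lemma Ph_le (L a : ℕ) : Ph L a ≤ 2 * a * (7 * L + 1) := by
  induction a with
  | zero => simp [Ph]
  | succ n ih =>
    rw [Ph_succ]
    have h1 := G_anti L n
    have h2 := G_zero_le L
    nlinarith

lemma psi_ineq (L : ℕ) (z : ℕ × ℤ) (hz : z ≠ (0, 0)) (hL : z.1 < L) :
    av (fun z => (Ph L z.1 : ℝ)) z + av (fun z => (w z : ℝ)) z + 1100 * av F z + 1 ≤
      Ph L z.1 + w z + 1100 * F z + 2000000 * L * zo z := by
  have hcase : ∀ (a : ℕ) (k : ℤ), zo (a, 2 * k) = 0 := by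
    intro a k
    have : ¬ (2 * k) % 2 = 1 := by omega
    simp [zo]
  rcases state_cases z with ⟨k, rfl⟩ | ⟨a, k, rfl⟩ | ⟨k, rfl⟩ | ⟨a, k, rfl⟩
  · have hk : k ≠ 0 := by rintro rfl; exact hz (by simp)
    rw [hcase, av_w_zero k hk, av_even]
    have := av_F_even 0 k
    simp only
    linarith
  · rw [hcase, av_w_succ, av_even]
    have := av_F_even (a + 1) k
    simp only
    linarith
  · have hz1 : zo (0, 2 * k + 1) = 1 := by
      have : (2 * k + 1) % 2 = 1 := by omega
      simp [zo, this]
    rw [hz1, w_odd]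
    have h1 := av_F_zero k
    have hs := sq_nonneg' (0, 2 * k + 1)
    rw [av_odd_zero (fun z => (w z : ℝ)), av_odd_zero]
    have h3 : (w (1, 3 * k + 2) : ℝ) ≤ 3 := by
      have := w_le 1 (by norm_num) (3 * k + 2)
      simp at this
      exact_mod_cast this
    have h4 : (w (1, -3 * k - 1) : ℝ) ≤ 3 := by
      have := w_le 1 (by norm_num) (-3 * k - 1)
      simp at this
      have h' : (w (1, -3 * k - 1) : ℕ) ≤ 3 := by simpa using this
      exact_mod_cast h'
    have h5 : (Ph L 1 : ℝ) ≤ 14 * L + 2 := by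
      have := Ph_le L 1
      have h' : (Ph L 1 : ℝ) ≤ ((2 * 1 * (7 * L + 1) : ℕ) : ℝ) := by exact_mod_cast this
      push_cast at h'; linarith
    have h6 : (1:ℝ) ≤ L := by
      have : 1 ≤ L := by simp at hL; omega
      exact_mod_cast this
    have h7 : (0:ℝ) ≤ Ph L 0 := Nat.cast_nonneg _
    simp only [Nat.cast_zero]
    nlinarith
  · have hz1 : zo (a + 1, 2 * k + 1) = 0 := by simp [zo]
    rw [hz1, w_odd]
    have h1 := av_F_succ a k
    have hs := sq_nonneg' (a + 1, 2 * k + 1)
    rw [av_odd_succ (fun z => (w z : ℝ)), av_odd_succ]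
    simp only at hL ⊢
    have hPh : (Ph L (a + 2) : ℝ) + Ph L a = 2 * Ph L (a + 1) - 2 * fv (a + 1) := by
      have e1 := Ph_succ L (a + 1)
      have e2 := Ph_succ L a
      have e3 := G_succ L a (by omega)
      have e1' : (Ph L (a + 2) : ℝ) = Ph L (a + 1) + 2 * G L (a + 1) := by exact_mod_cast e1
      have e2' : (Ph L (a + 1) : ℝ) = Ph L a + 2 * G L a := by exact_mod_cast e2
      have e3' : (G L a : ℝ) = G L (a + 1) + fv (a + 1) := by exact_mod_cast e3
      rw [e1']; linarith
    have hw1 : (w (a + 2, 3 * k + 2) : ℝ) ≤ padicValNat 2 (a + 2) + 3 := by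
      exact_mod_cast w_le (a + 2) (by omega) (3 * k + 2)
    have hfv : (fv (a + 1) : ℝ) = 5 + padicValNat 2 (a + 2) + padicValNat 2 a := by
      simp only [fv]; push_cast; rfl
    have hv0 : (0:ℝ) ≤ padicValNat 2 (a + 2) := Nat.cast_nonneg _
    have hv1 : (0:ℝ) ≤ padicValNat 2 a := Nat.cast_nonneg _
    rcases Nat.eq_zero_or_pos a with ha | ha
    · subst ha
      have h2 := w_zero_le (k - e 0)
      have h3 := sq_succ_true 0 k
      have h4 : sq (0, k - e 0) = √(|((k - e 0 : ℤ) : ℝ)|) := by simp [sq]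
      rw [← h4] at h2
      simp only [Nat.cast_zero]
      have hw3 : (w (2, 3 * k + 2) : ℝ) ≤ 4 := by
        have h := w_le 2 (by norm_num) (3 * k + 2)
        simp at h
        exact_mod_cast h
      norm_num at hs h1 h2 h3 hfv hPh ⊢
      linarith
    · have hw2 : (w (a, k - e a) : ℝ) ≤ padicValNat 2 a + 3 := by
        exact_mod_cast w_le a (by omega) (k - e a)
      have : (0:ℝ) ≤ 0.0013 * ((9 / 10) ^ (a + 1) * sq (a + 1, 2 * k + 1)) := by positivity
      simp only [Nat.cast_zero]
      linarith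

lemma stay_le (L t : ℕ) (z : ℕ × ℤ) :
    t * stay L t z ≤ Ph L z.1 + 2000000 * L * acc zo t z + w z + 1100 * F z := by
  have hnn : ∀ t z, (0:ℝ) ≤ Ph L z.1 + 2000000 * L * acc zo t z + w z + 1100 * F z := by
    intro t z
    have h1 := acc_nonneg zo_nonneg t z
    have h2 := F_nonneg z
    positivity
  induction t generalizing z with
  | zero => simpa using hnn 0 z
  | succ n ih =>
    by_cases h : z = (0, 0) ∨ L ≤ z.1
    · have : stay L (n + 1) z = 0 := by simp only [stay, h, if_true]
      rw [this, mul_zero]; exact hnn _ _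
    · have e1 : stay L (n + 1) z = av (stay L n) z := by simp only [stay, h, if_false]
      push Not at h
      have h1 := psi_ineq L z h.1 h.2
      have h2 := av_mono (f := fun z => (n:ℝ) * stay L n z)
        (g := fun z => Ph L z.1 + 2000000 * L * acc zo n z + w z + 1100 * F z) ih z
      rw [av_mul, ← e1] at h2
      have h3 : av (fun z => (Ph L z.1 : ℝ) + 2000000 * L * acc zo n z + w z + 1100 * F z) z =
          av (fun z => (Ph L z.1 : ℝ)) z + 2000000 * L * av (acc zo n) z + av (fun z => (w z : ℝ)) z +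
            1100 * av F z := by
        simp only [av]; ring
      rw [h3] at h2
      have h4 := stay_le_one L (n + 1) z
      push_cast
      simp only [acc]
      linarith

/-- First form of the upper bound. -/
theorem surv_le_sq : ∃ C : ℝ, 0 < C ∧ ∀ (t : ℕ), 1 ≤ t → ∀ z : ℕ × ℤ, surv t z ≤ C * (1 + z.1 + sq z) / √t := by
  obtain ⟨B, hB, hacc⟩ := acc_zo_le
  refine ⟨4001200 + 4000001 * B + 31000000, by positivity, fun t ht z => ?_⟩
  set L := Nat.sqrt t + 1 with hL
  have ht0 : (1:ℝ) ≤ t := by exact_mod_cast ht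
  have hst : (1:ℝ) ≤ √t := by
    rw [show (1:ℝ) = √1 by simp]; exact Real.sqrt_le_sqrt ht0
  have hsq : √(t:ℝ) * √t = t := Real.mul_self_sqrt (by positivity)
  have hL1 : √(t:ℝ) ≤ L := by
    rw [hL]
    apply Real.sqrt_le_iff.mpr
    refine ⟨by positivity, ?_⟩
    have := Nat.lt_succ_sqrt' t
    have h' : t ≤ (Nat.sqrt t + 1) ^ 2 := this.le
    exact_mod_cast h'
  have hL2 : (L:ℝ) ≤ 2 * √t := by
    have h1 : (Nat.sqrt t : ℝ) ≤ √t := by
      apply Real.le_sqrt_of_sq_le
      have := Nat.sqrt_le' t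
      exact_mod_cast this
    rw [hL]; push_cast; linarith
  have hu := hacc t z
  have hu0 := acc_nonneg zo_nonneg t z
  set u := acc zo t z with hudef
  have hs0 := sq_nonneg' z
  set s := sq z with hsdef
  have ha0 : (0:ℝ) ≤ z.1 := Nat.cast_nonneg _
  -- hit
  have h1 := hit_le L t z
  rw [← hudef] at h1
  have hh : hit L t z * √t ≤ z.1 + s + B := by
    have := hit_nonneg L t z
    nlinarith
  -- stay
  have h2 := stay_le L t z
  rw [← hudef] at h2
  have hPh : (Ph L z.1 : ℝ) ≤ 32 * z.1 * √t := by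
    have h3 := Ph_le L z.1
    have h4 : (Ph L z.1 : ℝ) ≤ ((2 * z.1 * (7 * L + 1) : ℕ) : ℝ) := by exact_mod_cast h3
    push_cast at h4
    have h5 : (1:ℝ) ≤ L := by linarith
    have h6 : (2:ℝ) * z.1 * (7 * L + 1) ≤ 2 * z.1 * (16 * √t) := by
      apply mul_le_mul_of_nonneg_left _ (by positivity)
      linarith
    linarith
  have hw : (w z : ℝ) ≤ z.1 + 3 + 2 * s := by
    obtain ⟨a, β⟩ := z
    rcases a with _ | a
    · have := w_zero_le β
      have h4 : s = √(|(β : ℝ)|) := by simp [hsdef, sq]
      rw [← h4] at this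
      simp only [Nat.cast_zero]; linarith
    · have := w_le' (a + 1) (by omega) β
      simp only; linarith
  have hF := F_le z
  rw [← hsdef] at hF
  have hst2 : stay L t z * √t ≤ 32 * z.1 + 4000000 * (s + B) + (z.1 + 3 + 2 * s) + 1100 * (s + 28005) := by
    have h3 : (t:ℝ) * stay L t z ≤ 32 * z.1 * √t + 4000000 * √t * (s + B) + (z.1 + 3 + 2 * s) * √t +
        1100 * (s + 28005) * √t := by
      have e1 : 2000000 * (L:ℝ) * u ≤ 4000000 * √t * (s + B) := by
        have : (L:ℝ) * u ≤ 2 * √t * (s + B) := mul_le_mul hL2 hu hu0 (by positivity)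
        linarith
      have e2 : z.1 + 3 + 2 * s ≤ (z.1 + 3 + 2 * s) * √t := by
        have : 0 ≤ z.1 + 3 + 2 * s := by positivity
        nlinarith
      have e3 : 1100 * (s + 28005) ≤ 1100 * (s + 28005) * √t := by
        have : 0 ≤ 1100 * (s + 28005) := by positivity
        nlinarith
      linarith
    have h4 : (t:ℝ) * stay L t z = (stay L t z * √t) * √t := by
      rw [mul_assoc, hsq]; ring
    rw [h4] at h3
    have h5 : 32 * (z.1:ℝ) * √t + 4000000 * √t * (s + B) + (z.1 + 3 + 2 * s) * √t + 1100 * (s + 28005) * √t =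
        (32 * z.1 + 4000000 * (s + B) + (z.1 + 3 + 2 * s) + 1100 * (s + 28005)) * √t := by ring
    rw [h5] at h3
    exact le_of_mul_le_mul_right h3 (by linarith)
  have h6 := surv_le_stay_hit L t z
  rw [le_div_iff₀ (by linarith)]
  have h7 : surv t z * √t ≤ stay L t z * √t + hit L t z * √t := by
    have := mul_le_mul_of_nonneg_right h6 (show 0 ≤ √(t:ℝ) by linarith)
    linarith
  have h8 : 0 ≤ B * z.1 := by positivity
  have h9 : 0 ≤ B * s := by positivity
  nlinarith

end Pool.Agent.Q158.Pair
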