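import Pool.Agent.Q158.Pair.Upper

/-! # Upper bound for the probability that the pair has not met, with a logarithm of the distance -/

namespace Pool.Agent.Q158.Pair

lemma surv_iter (s t : ℕ) : surv (s + t) = av^[s] (surv t) := by
  induction s with
  | zero => simp
  | succ n ih =>
    have : n + 1 + t = (n + t) + 1 := by ring
    rw [this, Function.iterate_succ_apply', ← ih]; rfl

lemma iter_mono (s : ℕ) {f g : ℕ × ℤ → ℝ} (h : ∀ z, f z ≤ g z) : ∀ z, av^[s] f z ≤ av^[s] g z := by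
  induction s with
  | zero => exact h
  | succ n ih =>
    intro z
    rw [Function.iterate_succ_apply', Function.iterate_succ_apply']
    exact av_mono ih z

lemma iter_lin (s : ℕ) (f : ℕ × ℤ → ℝ) (c d : ℝ) : av^[s] (fun z => c * f z + d) = fun z => c * av^[s] f z + d := by
  induction s with
  | zero => rfl
  | succ n ih =>
    rw [Function.iterate_succ_apply', Function.iterate_succ_apply', ih]
    funext z
    simp only [av]; ring

lemma iter_add (s : ℕ) (f g : ℕ × ℤ → ℝ) : av^[s] (fun z => f z + g z) = fun z => av^[s] f z + av^[s] g z := by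
  induction s with
  | zero => rfl
  | succ n ih =>
    rw [Function.iterate_succ_apply', Function.iterate_succ_apply', Function.iterate_succ_apply', ih]
    funext z
    simp only [av]; ring

lemma iter_sq (s : ℕ) (z : ℕ × ℤ) : av^[s] sq z ≤ 0.966 ^ s * sq z + 15 := by
  induction s generalizing z with
  | zero => simp
  | succ n ih =>
    rw [Function.iterate_succ_apply]
    have h := iter_mono n (f := av sq) (g := fun z => 0.966 * sq z + 1 / 2) av_sq z
    rw [iter_lin] at h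
    have := ih z
    rw [pow_succ]
    simp only at h
    linarith

lemma av_fst_sq (z : ℕ × ℤ) : av (fun z => (z.1 : ℝ) ^ 2) z ≤ (z.1 : ℝ) ^ 2 + 1 := by
  rcases state_cases z with ⟨k, rfl⟩ | ⟨a, k, rfl⟩ | ⟨k, rfl⟩ | ⟨a, k, rfl⟩
  · rw [av_even]; simp
  · rw [av_even]; simp
  · rw [av_odd_zero]; simp
  · rw [av_odd_succ]; push_cast; linarith

lemma iter_fst_sq (s : ℕ) (z : ℕ × ℤ) : av^[s] (fun z => (z.1 : ℝ) ^ 2) z ≤ (z.1 : ℝ) ^ 2 + s := by
  induction s generalizing z with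
  | zero => simp
  | succ n ih =>
    rw [Function.iterate_succ_apply]
    have h := iter_mono n (f := av (fun z => (z.1 : ℝ) ^ 2)) (g := fun z => 1 * (fun z : ℕ × ℤ => (z.1 : ℝ) ^ 2) z + 1)
      (fun z => by have := av_fst_sq z; simpa using this) z
    rw [iter_lin] at h
    have := ih z
    push_cast
    simp only at h
    linarith

lemma iter_fst (s : ℕ) (z : ℕ × ℤ) : av^[s] (fun z => (z.1 : ℝ)) z ≤ z.1 + √s := by
  rcases Nat.eq_zero_or_pos s with h0 | h0
  · rw [h0]; simp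
  · have hs : (0:ℝ) < s := by exact_mod_cast h0
    set r : ℝ := √((z.1 : ℝ) ^ 2 + s) with hr
    have hr0 : 0 < r := Real.sqrt_pos.mpr (by positivity)
    have hr2 : r * r = (z.1 : ℝ) ^ 2 + s := Real.mul_self_sqrt (by positivity)
    have h1 := iter_mono s (f := fun z => (z.1 : ℝ)) (g := fun z => (1 / (2 * r)) * (fun z : ℕ × ℤ => (z.1 : ℝ) ^ 2) z + r / 2)
      (fun z => by
        have h : (z.1 : ℝ) * (2 * r) ≤ (z.1 : ℝ) ^ 2 + r * r := by nlinarith [sq_nonneg ((z.1 : ℝ) - r)]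
        have h2 : (z.1 : ℝ) = (z.1 : ℝ) * (2 * r) / (2 * r) := by field_simp
        calc (z.1 : ℝ) = (z.1 : ℝ) * (2 * r) / (2 * r) := h2
          _ ≤ ((z.1 : ℝ) ^ 2 + r * r) / (2 * r) := by
            apply div_le_div_of_nonneg_right h (by positivity)
          _ = _ := by field_simp) z
    rw [iter_lin] at h1
    simp only at h1
    have h2 := iter_fst_sq s z
    have h3 : 1 / (2 * r) * av^[s] (fun z => (z.1 : ℝ) ^ 2) z + r / 2 ≤ r := by
      have : 1 / (2 * r) * av^[s] (fun z => (z.1 : ℝ) ^ 2) z ≤ 1 / (2 * r) * (r * r) := by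
        apply mul_le_mul_of_nonneg_left _ (by positivity)
        rw [hr2]; exact h2
      have h4 : 1 / (2 * r) * (r * r) = r / 2 := by field_simp
      linarith
    have h5 : r ≤ z.1 + √s := by
      rw [hr]
      apply Real.sqrt_le_iff.mpr
      have h6 : √(s:ℝ) * √s = s := Real.mul_self_sqrt hs.le
      have h7 : (0:ℝ) ≤ z.1 := Nat.cast_nonneg _
      have h8 := Real.sqrt_nonneg (s:ℝ)
      have h9 : 0 ≤ (z.1:ℝ) * √s := by positivity
      exact ⟨by positivity, by nlinarith⟩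
    linarith

lemma sq_le_log (a : ℕ) (b : ℤ) (s : ℕ) (hs : 15 * Real.log (2 + |(b:ℝ)|) ≤ s) : 0.966 ^ s * sq (a, b) ≤ 1 := by
  have hb : (0:ℝ) < 2 + |(b:ℝ)| := by positivity
  have hl : 0 ≤ Real.log (2 + |(b:ℝ)|) := Real.log_nonneg (by have := abs_nonneg (b:ℝ); linarith)
  have h1 : (0.966:ℝ) ^ s ≤ Real.exp (-(Real.log (2 + |(b:ℝ)|) / 2)) := by
    have h2 : (0.966:ℝ) ≤ Real.exp (-0.034) := by
      have := Real.add_one_le_exp (-0.034 : ℝ)
      linarith
    calc (0.966:ℝ) ^ s ≤ Real.exp (-0.034) ^ s := pow_le_pow_left₀ (by norm_num) h2 s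
      _ = Real.exp (s * (-0.034)) := by rw [Real.exp_nat_mul]
      _ ≤ _ := by
        apply Real.exp_le_exp.mpr
        nlinarith
  have h3 : sq (a, b) ≤ √(2 + |(b:ℝ)|) := by
    apply Real.sqrt_le_sqrt
    simp only
    have h3 : (1:ℝ) ≤ 3 ^ a := one_le_pow₀ (by norm_num)
    have := div_le_self (abs_nonneg (b:ℝ)) h3
    linarith
  have h4 : Real.exp (-(Real.log (2 + |(b:ℝ)|) / 2)) * √(2 + |(b:ℝ)|) = 1 := by
    have : √(2 + |(b:ℝ)|) = Real.exp (Real.log (2 + |(b:ℝ)|) / 2) := by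
      rw [Real.exp_half, Real.exp_log hb]
    rw [this, ← Real.exp_add]; simp
  calc 0.966 ^ s * sq (a, b) ≤ Real.exp (-(Real.log (2 + |(b:ℝ)|) / 2)) * √(2 + |(b:ℝ)|) :=
        mul_le_mul h1 h3 (sq_nonneg' _) (Real.exp_pos _).le
    _ = 1 := h4

/-- The upper bound for the probability that the pair has not met. -/
theorem surv_le : ∃ C : ℝ, 0 < C ∧ ∀ (t : ℕ), 1 ≤ t → ∀ (a : ℕ) (b : ℤ),
    surv t (a, b) ≤ C * (1 + a + √(Real.log (2 + |(b:ℝ)|))) / √t := by
  obtain ⟨C₀, hC₀, h₀⟩ := surv_le_sq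
  refine ⟨26 * C₀ + 6, by positivity, fun t ht a b => ?_⟩
  set Lg := Real.log (2 + |(b:ℝ)|) with hLg
  have ht0 : (1:ℝ) ≤ t := by exact_mod_cast ht
  have hst : (0:ℝ) < √t := Real.sqrt_pos.mpr (by linarith)
  have hL1 : 0.69 ≤ Lg := by
    have h1 : Real.log 2 ≤ Lg := Real.log_le_log (by norm_num) (by have := abs_nonneg (b:ℝ); linarith)
    have := Real.log_two_gt_d9
    linarith
  set s := ⌈15 * Lg⌉₊ with hs
  have hs1 : 15 * Lg ≤ s := Nat.le_ceil _
  have hs2 : (s:ℝ) ≤ 17 * Lg := by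
    have := Nat.ceil_lt_add_one (show 0 ≤ 15 * Lg by linarith)
    linarith
  have ha0 : (0:ℝ) ≤ a := Nat.cast_nonneg _
  have hLs := Real.sqrt_nonneg Lg
  rw [le_div_iff₀ hst]
  by_cases hts : t < 2 * s
  · have h1 : (t:ℝ) ≤ 36 * Lg := by
      have : (t:ℝ) ≤ 2 * s := by exact_mod_cast hts.le
      linarith
    have h2 : √(t:ℝ) ≤ 6 * √Lg := by
      have e1 : √(36 * Lg) = 6 * √Lg := by
        rw [Real.sqrt_mul (by norm_num), show (36:ℝ) = 6 ^ 2 by norm_num, Real.sqrt_sq (by norm_num)]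
      rw [← e1]; exact Real.sqrt_le_sqrt h1
    have h3 := surv_le_one t (a, b)
    have h4 : surv t (a, b) * √t ≤ 6 * √Lg := by
      have := surv_nonneg t (a, b)
      nlinarith
    have h5 : 0 ≤ C₀ * √Lg := by positivity
    have h6 : 0 ≤ C₀ * a := by positivity
    nlinarith
  · push Not at hts
    obtain ⟨t', ht'⟩ := Nat.exists_eq_add_of_le (show s ≤ t by omega)
    have ht'1 : 1 ≤ t' := by omega
    have h1 : (t:ℝ) ≤ 2 * t' := by exact_mod_cast (by omega : t ≤ 2 * t')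
    have hst' : (0:ℝ) < √(t':ℝ) := Real.sqrt_pos.mpr (by exact_mod_cast ht'1)
    have h2 : √(t:ℝ) ≤ 1.5 * √t' := by
      have e1 : √(2.25 * (t':ℝ)) = 1.5 * √t' := by
        rw [Real.sqrt_mul (by norm_num), show (2.25:ℝ) = 1.5 ^ 2 by norm_num, Real.sqrt_sq (by norm_num)]
      rw [← e1]; apply Real.sqrt_le_sqrt
      have : (0:ℝ) ≤ t' := Nat.cast_nonneg _
      linarith
    have h3 := iter_mono s (f := surv t') (g := fun z => (C₀ / √t') * (fun z : ℕ × ℤ => (z.1 : ℝ) + sq z) z + C₀ / √t')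
      (fun z => by
        have := h₀ t' ht'1 z
        have e1 : C₀ * (1 + z.1 + sq z) / √t' = (C₀ / √t') * ((z.1 : ℝ) + sq z) + C₀ / √t' := by ring
        simp only; linarith) (a, b)
    rw [iter_lin, ← surv_iter, ← ht', iter_add] at h3
    simp only at h3
    have h4 := iter_fst s (a, b)
    have h5 := iter_sq s (a, b)
    have h6 := sq_le_log a b s hs1
    have h7 : √(s:ℝ) ≤ 5 * √Lg := by
      have e1 : √(25 * Lg) = 5 * √Lg := by
        rw [Real.sqrt_mul (by norm_num), show (25:ℝ) = 5 ^ 2 by norm_num, Real.sqrt_sq (by norm_num)]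
      rw [← e1]; exact Real.sqrt_le_sqrt (by linarith)
    simp only at h4
    have h8 : surv t (a, b) ≤ (C₀ / √t') * (17 + a + 5 * √Lg) := by
      have h9 : av^[s] (fun z => (z.1 : ℝ)) (a, b) + av^[s] sq (a, b) ≤ 16 + a + 5 * √Lg := by linarith
      have h10 : 0 ≤ C₀ / √t' := by positivity
      have h11 := mul_le_mul_of_nonneg_left h9 h10
      linarith
    calc surv t (a, b) * √t ≤ (C₀ / √t') * (17 + a + 5 * √Lg) * (1.5 * √t') := by
          apply mul_le_mul h8 h2 hst.le; positivity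
      _ = C₀ * (25.5 + 1.5 * a + 7.5 * √Lg) := by field_simp; ring
      _ ≤ (26 * C₀ + 6) * (1 + a + √Lg) := by
        have h5 : 0 ≤ C₀ * √Lg := by positivity
        have h6 : 0 ≤ C₀ * a := by positivity
        nlinarith

end Pool.Agent.Q158.Pair
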